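import Pool.Agent.Lib.MP_d476f3_gt.St.Top

open Set MeasureTheory Filter Topology
open scoped ENNReal NNReal

noncomputable section

namespace Pool.Agent.Lib.MP_d476f3_gt.St

lemma exists_partition (X : Type*) [MetricSpace X] [CompactSpace X] [Nonempty X] {ε : ℝ}
    (hε : 0 < ε) : ∃ B : ℕ → Set X, Pairwise (Function.onFun Disjoint B) ∧ (∀ x, ∃ c, x ∈ B c) ∧
      (∀ c, IsSigmaCompact (B c)) ∧ ∀ c, ∀ x ∈ B c, ∀ y ∈ B c, dist x y < ε := by
  let A : ℕ → Set X := fun c => Metric.closedBall (TopologicalSpace.denseSeq X c) (ε / 3)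
  refine ⟨disjointed A, disjoint_disjointed A, fun x => ?_, fun c => ?_, fun c x hx y hy => ?_⟩
  · rw [← mem_iUnion, iUnion_disjointed, mem_iUnion]
    obtain ⟨c, hc⟩ := Metric.denseRange_iff.1 (TopologicalSpace.denseRange_denseSeq X) x (ε / 3)
      (by positivity)
    exact ⟨c, hc.le⟩
  · have : IsLocallyClosed (disjointed A c) := by
      rw [disjointed_eq_inter_compl]
      exact Metric.isClosed_closedBall.isLocallyClosed.inter ((finite_Iio c).isOpen_biInter
        fun _ _ => Metric.isClosed_closedBall.isOpen_compl).isLocallyClosed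
    have := this.locallyCompactSpace
    exact isSigmaCompact_iff_sigmaCompactSpace.2 inferInstance
  · have h1 := Metric.mem_closedBall.1 (disjointed_subset A c hx)
    have h2 := Metric.mem_closedBall.1 (disjointed_subset A c hy)
    linarith [dist_triangle_right x y (TopologicalSpace.denseSeq X c)]

variable {M : Type*} [EMetricSpace M] [MeasurableSpace M] [BorelSpace M] {m k : ℕ}

lemma tsum_image_le {X : Type*} [TopologicalSpace X] (μ : Measure M) {σ : X → M}
    (hσ : Continuous σ) {B : ℕ → Set X} (hd : Pairwise (Function.onFun Disjoint B))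
    (hB : ∀ c, IsSigmaCompact (B c)) :
    ∑' c, μ (σ '' B c) ≤ ∫⁻ p, ({x | σ x = p}.encard : ℝ≥0∞) ∂μ := by
  classical
  have hm : ∀ c, MeasurableSet (σ '' B c) := fun c => by
    obtain ⟨K, hK, h⟩ := (hB c).image hσ
    exact h ▸ MeasurableSet.iUnion fun i => (hK i).isClosed.measurableSet
  simp_rw [← fun c => lintegral_indicator_one (μ := μ) (hm c)]
  rw [← lintegral_tsum fun c => (measurable_one.indicator (hm c)).aemeasurable]
  refine lintegral_mono fun p => ?_
  rw [ENNReal.tsum_eq_iSup_sum]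
  refine iSup_le fun s => ?_
  simp only [indicator, Pi.one_apply, Finset.sum_boole]
  have h : ∀ c : s.filter fun c => p ∈ σ '' B c, ∃ x ∈ B c, σ x = p := fun c =>
    (Finset.mem_filter.1 c.2).2
  choose x hx hx' using h
  have h1 := encard_le_encard_of_injOn (s := univ) (t := {x | σ x = p}) (f := x)
    (fun c _ => hx' c) fun c _ c' _ e => by_contra fun ne =>
      disjoint_left.1 (hd fun e' => ne (Subtype.ext e')) (hx c) (e ▸ hx c')
  rw [encard_univ, ENat.card_eq_coe_fintype_card, Fintype.card_coe] at h1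
  exact_mod_cast ENat.toENNReal_le.2 h1

lemma sum_inter_le {κ : Type} [Fintype κ] (μ : Measure M) {Tr : κ → Set M} (ho : ∀ j, IsOpen (Tr j))
    {a : ℕ} (hc : ∀ p (s : Finset κ), (∀ j ∈ s, p ∈ Tr j) → s.card ≤ a) (A : Set M) :
    ∑ j, μ (Tr j ∩ A) ≤ a * μ A := by
  classical
  have h1 : ∀ j, μ (Tr j ∩ A) = ∫⁻ p in A, (Tr j).indicator 1 p ∂μ := fun j => by
    rw [lintegral_indicator_one (ho j).measurableSet, Measure.restrict_apply (ho j).measurableSet]
  simp_rw [h1]
  rw [← lintegral_finsetSum _ fun j _ => measurable_one.indicator (ho j).measurableSet,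
    ← setLIntegral_const]
  refine lintegral_mono fun p => ?_
  simp only [indicator, Pi.one_apply, Finset.sum_boole]
  exact_mod_cast hc p _ fun j hj => (Finset.mem_filter.1 hj).2

lemma hit_le (hk : 0 < k) {y : M → (Fin m → ℝ)} (hy : LipschitzWith 1 y) {b : ℕ}
    (hb : ∀ p, ‖y p‖ ≤ b) (Q : Set M) :
    cube (Fin m) {θ | ‖θ‖ ≤ 1 ∧ ∃ p ∈ Q, y p - θ ∉ Wlt m k} ≤
      (Fintype.card (Dir m k) * (2 * b + 3) ^ k : ℕ) * μH[k] Q := by
  classical
  have : Nonempty (Fin k) := ⟨⟨0, hk⟩⟩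
  obtain ⟨S, hS, hS'⟩ : ∃ S : Finset (Dir m k × (Fin k → ℤ)),
      S.card = Fintype.card (Dir m k) * (2 * b + 3) ^ k ∧
      ∀ (T : Dir m k) (c : Fin k → ℤ), (∀ j, |c j| ≤ b + 1) → (T, c) ∈ S := by
    refine ⟨Finset.univ ×ˢ Fintype.piFinset fun _ => Finset.Icc (-(b + 1 : ℤ)) (b + 1), ?_,
      fun T c h => ?_⟩
    · simp only [Finset.card_product, Finset.card_univ, Fintype.card_piFinset, Int.card_Icc,
        Finset.prod_const, Fintype.card_fin]
      congr 2
      omega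
    · simpa only [Finset.mem_product, Finset.mem_univ, true_and, Fintype.mem_piFinset,
        Finset.mem_Icc, ← abs_le] using h
  refine le_trans (measure_mono (t := ⋃ q ∈ S, {θ | (fun j => θ (q.1.emb j)) ∈
    (fun v => v + fun j => (q.2 j : ℝ)) ⁻¹' ((fun p j => y p (q.1.emb j)) '' Q)}) ?_)
    ((measure_biUnion_finset_le _ _).trans ((Finset.sum_le_card_nsmul _ _ (μH[k] Q)
      fun q _ => (cube_proj_le q.1.emb _).trans ?_).trans_eq (by rw [hS, nsmul_eq_mul])))
  · rintro θ ⟨hθ, p, hp, h⟩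
    obtain ⟨T, hT, hT'⟩ := Finset.exists_subset_card_eq (not_lt.1 h)
    choose c hc using fun j => mem_intc.1 (hT (Dir.emb_mem ⟨T, hT'⟩ j))
    refine mem_iUnion₂.2 ⟨(⟨T, hT'⟩, c), hS' _ _ fun j => ?_, p, hp,
      funext fun j => eq_add_of_sub_eq' (hc j)⟩
    have h1 : |(c j : ℝ)| ≤ b + 1 := by
      rw [← hc j]
      exact (norm_le_pi_norm (y p - θ) _).trans ((norm_sub_le _ _).trans (add_le_add (hb p) hθ))
    exact_mod_cast h1
  · have h4 := (lip_proj hy q.1).hausdorffMeasure_image_le (d := k) (by positivity) Q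
    have h5 := hausdorffMeasure_pi_real (ι := Fin k)
    rw [Fintype.card_fin] at h5
    rw [measure_preimage_add_right, ← h5]
    simpa using h4

theorem exists_count {X : Type*} [MetricSpace X] [CompactSpace X] [Nonempty X] (hk : 0 < k)
    {κ : Type} [Fintype κ] {y : κ → M → (Fin m → ℝ)} (hy : ∀ j, LipschitzWith 1 (y j)) {b : ℕ}
    (hb : ∀ j p, ‖y j p‖ ≤ b) {Tr : κ → Set M} (ho : ∀ j, IsOpen (Tr j)) {a : ℕ}
    (hc : ∀ p (s : Finset κ), (∀ j ∈ s, p ∈ Tr j) → s.card ≤ a) (σ : C(X, M)) :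
    ∃ g : κ → ℕ → (Fin m → ℝ) → ℝ≥0∞, (∀ j l, Measurable (g j l)) ∧
      (∀ l, ∑ j, ∫⁻ θ, g j l θ ∂cube (Fin m) ≤ (Fintype.card (Dir m k) * (2 * b + 3) ^ k * a : ℕ) *
        ∫⁻ p, ({x | σ x = p}.encard : ℝ≥0∞) ∂μH[k]) ∧
      ∀ j θ, ‖θ‖ ≤ 1 → ∀ s : Finset X, (∀ x ∈ s, σ x ∈ Tr j ∧ y j (σ x) - θ ∉ Wlt m k) →
        ∀ᶠ l in atTop, (s.card : ℝ≥0∞) ≤ g j l θ := by
  classical
  choose B hd hu hB hs using fun l : ℕ => exists_partition X (Nat.one_div_pos_of_nat (n := l))
  let T : κ → ℕ → ℕ → Set (Fin m → ℝ) := fun j l c => toMeasurable (cube (Fin m))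
    {θ | ‖θ‖ ≤ 1 ∧ ∃ p ∈ Tr j ∩ σ '' B l c, y j p - θ ∉ Wlt m k}
  have hT : ∀ j l c, Measurable ((T j l c).indicator (1 : (Fin m → ℝ) → ℝ≥0∞)) := fun j l c =>
    measurable_one.indicator (measurableSet_toMeasurable _ _)
  refine ⟨fun j l θ => ∑' c, (T j l c).indicator 1 θ, fun j l => Measurable.tsum (hT j l),
    fun l => ?_, fun j θ hθ s h => ?_⟩
  · simp_rw [fun j => lintegral_tsum (μ := cube (Fin m)) fun c => (hT j l c).aemeasurable,
      T, lintegral_indicator_one (measurableSet_toMeasurable _ _), measure_toMeasurable]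
    rw [← Summable.tsum_finsetSum fun _ _ => ENNReal.summable, Nat.cast_mul, mul_assoc]
    refine (ENNReal.tsum_le_tsum fun c => (Finset.sum_le_sum fun j _ =>
      hit_le hk (hy j) (hb j) _).trans ((Finset.mul_sum _ _ _).symm.trans_le
        (mul_le_mul_right (sum_inter_le μH[k] ho hc _) _))).trans ?_
    rw [ENNReal.tsum_mul_left, ENNReal.tsum_mul_left]
    gcongr
    exact tsum_image_le _ σ.continuous (hd l) (hB l)
  have hev : ∀ᶠ l : ℕ in atTop, ∀ x ∈ s, ∀ x' ∈ s, x ≠ x' → 1 / ((l : ℝ) + 1) < dist x x' := by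
    refine (eventually_all_finset s).2 fun x _ => (eventually_all_finset s).2 fun x' _ => ?_
    by_cases e : x = x'
    · exact Eventually.of_forall fun n hn => absurd e hn
    · exact (tendsto_one_div_add_atTop_nhds_zero_nat.eventually
        (gt_mem_nhds (dist_pos.2 e))).mono fun l hl _ => hl
  refine hev.mono fun l hl => ?_
  choose idx hidx using hu l
  have hinj : InjOn idx s := fun x hx x' hx' e => by_contra fun ne =>
    (hl x hx x' hx' ne).not_gt (hs l _ x (hidx x) x' (e ▸ hidx x'))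
  refine le_trans ?_ (ENNReal.sum_le_tsum (s.image idx))
  rw [Finset.sum_congr rfl (g := fun _ => 1), Finset.sum_const, Finset.card_image_of_injOn hinj]
  · simp
  intro c hc
  obtain ⟨x, hx, rfl⟩ := Finset.mem_image.1 hc
  refine indicator_of_mem (subset_toMeasurable _ _ ?_) _
  exact ⟨hθ, σ x, ⟨(h x hx).1, x, hidx x, rfl⟩, (h x hx).2⟩

end Pool.Agent.Lib.MP_d476f3_gt.St
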