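import Pool.Agent.Lib.MP_d476f3_gt.St.Str

open Set Finsupp Filter Topology

noncomputable section

namespace Pool.Agent.Lib.MP_d476f3_gt.St

variable {X Y : Type*} [TopologicalSpace X] [TopologicalSpace Y] {q : ℤ} {n : ℕ}

/-- chains divisible by `q` -/
def Qs (q : ℤ) (n : ℕ) (X : Type*) [TopologicalSpace X] : Submodule ℤ (Chain n X) :=
  LinearMap.range (q • LinearMap.id)

lemma Qs_map {k : ℕ} (f : Chain n X →ₗ[ℤ] Chain k Y) {v : Chain n X} (h : v ∈ Qs q n X) :
    f v ∈ Qs q k Y := by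
  obtain ⟨b, rfl⟩ := h
  exact ⟨f b, (map_smul f q b).symm⟩

lemma Qs_of_val {A : Set X} {w : Chain n A} (h : push Subtype.val n w ∈ Qs q n X) :
    w ∈ Qs q n A := by
  obtain ⟨b, hb⟩ := h
  have e := push_eq_cmap (⟨Subtype.val, continuous_subtype_val⟩ : C(A, X)) n w
  simp only [ContinuousMap.coe_mk] at e
  refine ⟨mapRange (· / q) (by simp) w, Finsupp.ext fun σ => Int.mul_ediv_cancel' ?_⟩
  have h1 : (push Subtype.val n w) ((⟨Subtype.val, continuous_subtype_val⟩ : C(A, X)).comp σ) =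
      w σ := by
    rw [e]
    exact mapDomain_apply (fun σ σ' hσ => ContinuousMap.ext fun x =>
      Subtype.ext (DFunLike.congr_fun hσ x)) _ _
  rw [← h1, ← hb]
  exact dvd_mul_right _ _

/-- all `(n+1)`-cycles mod `q` in `A` bound mod `q` in `A` -/
def AcQ (q : ℤ) (n : ℕ) (A : Set X) : Prop :=
  ∀ v ∈ Ch (n + 1) A, bd n X v ∈ Qs q n X → v ∈ Bd (n + 1) A ⊔ Qs q (n + 1) X

lemma sub_Sd_Q {A : Set X} {v : Chain (n + 1) X} (hv : v ∈ Ch (n + 1) A)
    (hb : bd n X v ∈ Qs q n X) (N : ℕ) :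
    v - (Sd (n + 1) X ^ N : Module.End ℤ _) v ∈ Bd (n + 1) A ⊔ Qs q (n + 1) X := by
  induction N with
  | zero => simp
  | succ N ih =>
    rw [pow_succ', Module.End.mul_apply]
    obtain ⟨u, hu⟩ : ∃ u, u = (Sd (n + 1) X ^ N : Module.End ℤ _) v := ⟨_, rfl⟩
    rw [← hu] at ih ⊢
    have : v - Sd (n + 1) X u = (v - u) + (bd (n + 1) X (Tm (n + 1) X u) + Tm n X (bd n X u)) := by
      rw [bd_Tm]; abel
    rw [this]
    refine Submodule.add_mem _ ih (Submodule.add_mem_sup (bd_mem_Bd (Tm_mem ?_)) (Qs_map _ ?_))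
    · rw [hu]; exact Sd_pow_mem hv N
    · rw [hu, bd_Sd_pow]; exact Qs_map _ hb

lemma AcQ.union {U V : Set X} (hU : IsOpen U) (hV : IsOpen V) (h1 : AcQ q (n + 1) U)
    (h2 : AcQ q (n + 1) V) (h3 : AcQ q n (U ∩ V)) : AcQ q (n + 1) (U ∪ V) := by
  intro v hv hb
  obtain ⟨N, hN⟩ := exists_small hU hV Subset.rfl hv
  obtain ⟨w1, a1, w2, a2, a3⟩ := Submodule.mem_sup.1 hN
  replace a1 := Ch_mono inter_subset_right a1
  replace a2 := Ch_mono inter_subset_right a2
  have a4 := sub_Sd_Q hv hb N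
  have a5 : bd (n + 1) X w1 + bd (n + 1) X w2 ∈ Qs q (n + 1) X := by
    rw [← map_add, a3, bd_Sd_pow]
    exact Qs_map _ hb
  rw [← a3] at a4
  have a6 : bd (n + 1) X w1 - part (n + 1) V (bd (n + 1) X w1) ∈ Qs q (n + 1) X := by
    have := Qs_map (LinearMap.id - part (n + 1) V) a5
    simpa [part_pos (bd_mem a2)] using this
  obtain ⟨_, ⟨c, hc, rfl⟩, u, hu, a7⟩ := Submodule.mem_sup.1 (h3 _
    (inter_comm V U ▸ part_mem V (bd_mem a1)) (by
      have := Submodule.neg_mem _ (Qs_map (bd n X) a6)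
      simpa [bd_bd] using this))
  have a8 : bd (n + 1) X (w1 - c) ∈ Qs q (n + 1) X := by
    rw [← a7] at a6
    exact (congrArg (· ∈ _) (by rw [map_sub]; abel)).mp (Submodule.add_mem _ a6 hu)
  have b1 := h1 (w1 - c) (Submodule.sub_mem _ a1 (Ch_mono inter_subset_left hc)) a8
  have b2 := h2 (w2 + c) (Submodule.add_mem _ a2 (Ch_mono inter_subset_right hc))
    ((congrArg (· ∈ _) (by rw [map_sub, map_add]; abel)).mp (Submodule.sub_mem _ a5 a8))
  have := Submodule.add_mem _ a4 (Submodule.add_mem _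
    (sup_le_sup_right (Bd_mono subset_union_left) _ b1)
    (sup_le_sup_right (Bd_mono subset_union_right) _ b2))
  simpa using this

lemma AcQ.iUnion {ι : Type*} [Finite ι] {U : ι → Set X} (hU : ∀ i, IsOpen (U i))
    (hd : Pairwise (Function.onFun Disjoint U)) (h : ∀ i, AcQ q n (U i)) : AcQ q n (⋃ i, U i) := by
  intro v hv hb
  cases nonempty_fintype ι
  rw [← sum_part hU hd hv]
  refine Submodule.sum_mem _ fun i _ => sup_le_sup_right (Bd_mono (subset_iUnion U i)) _
    (h i _ (Ch_mono inter_subset_left (part_mem _ hv)) ?_)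
  rw [bd_part hU hd hv]
  exact Qs_map _ hb

lemma acq_const {F : Set X} (h : ∀ k (σ : C(Δ k, X)), range σ ⊆ F → ∀ x y, σ x = σ y) :
    AcQ q n F := by
  intro v hv hb
  have h1 : ∀ k (σ : C(Δ k, X)), range σ ⊆ F → σ = ContinuousMap.const _ (σ (vert k 0)) :=
    fun k σ hσ => ContinuousMap.ext fun x => h k σ hσ _ _
  by_cases hn : Even n
  · refine Submodule.mem_sup_left (Ch_mem LinearMap.id _ (fun σ hσ => ?_) hv)
    refine ⟨single (ContinuousMap.const _ (σ (vert _ 0))) 1, single_mem_Ch ?_ _, ?_⟩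
    · rintro _ ⟨x, rfl⟩
      exact hσ ⟨_, rfl⟩
    · rw [bd_const, ← h1 _ σ hσ]
      simp [parity_simps, hn]
  · let κ : Chain n X →ₗ[ℤ] Chain (n + 1) X :=
      linearCombination ℤ fun σ => single (ContinuousMap.const _ (σ (vert n 0))) 1
    have h2 : κ (bd n X v) = v := Ch_ext (κ ∘ₗ bd n X) LinearMap.id (fun σ hσ => by
      rw [h1 _ σ hσ, LinearMap.comp_apply, bd_const]
      simp [κ, hn]) hv
    exact Submodule.mem_sup_right (h2 ▸ Qs_map κ hb)

lemma homotopy_Q (H : C(X × Δ 1, Y)) {B : Set Y} (h : ∀ x, H x ∈ B) {w : Chain (n + 1) X}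
    (hb : bd n X w ∈ Qs q n X) :
    cmap (H.comp (lev X 0)) (n + 1) w - cmap (H.comp (lev X 1)) (n + 1) w ∈
      Bd (n + 1) B ⊔ Qs q (n + 1) Y := by
  have h1 := Submodule.neg_mem _ (Submodule.add_mem_sup
    (bd_mem_Bd (Pm_mem H (A := univ) (B := B) (fun x _ t => h _) (mem_Ch_univ w)))
    (Qs_map (Pm H n) hb))
  rw [bd_Pm] at h1
  simpa using h1

variable {E : Type*} [NormedAddCommGroup E] [NormedSpace ℝ E]

lemma acq_levels {π : X → E} (hπ : Continuous π) {O : Set E}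
    (h0 : ∀ U ⊆ O, Convex ℝ U → ∀ n, AcQ q n (π ⁻¹' U)) :
    ∀ (s : ℕ) (ι : Type) [Finite ι] (U : ι → Set E) (l : ι → ℕ), (∀ i, U i ⊆ O) →
    (∀ i, IsOpen (U i)) → (∀ i, Convex ℝ (U i)) → (∀ i, l i ≤ s) →
    (∀ i j, i ≠ j → l i = l j → Disjoint (U i) (U j)) → ∀ n, s ≤ n →
      AcQ q n (π ⁻¹' ⋃ i, U i) := by
  intro s
  induction s with
  | zero =>
    intro ι _ U l hO hU hc hl hd n _
    rw [preimage_iUnion]
    exact AcQ.iUnion (fun i => (hU i).preimage hπ)
      (fun i j hij => (hd i j hij (by have := hl i; have := hl j; omega)).preimage π)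
      fun i => h0 _ (hO i) (hc i) n
  | succ s ih =>
    intro ι _ U l hO hU hc hl hd n hn
    obtain ⟨n, rfl⟩ : ∃ m, n = m + 1 := ⟨n - 1, by omega⟩
    have e : (⋃ i, U i) = (⋃ i : {i // l i = s + 1}, U i) ∪ ⋃ i : {i // l i ≤ s}, U i := by
      ext x
      simp only [mem_iUnion, mem_union, Subtype.exists, exists_prop]
      constructor
      · rintro ⟨i, hi⟩
        rcases Nat.lt_or_ge s (l i) with h | h
        · exact Or.inl ⟨i, by have := hl i; omega, hi⟩
        · exact Or.inr ⟨i, h, hi⟩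
      · rintro (⟨i, -, hi⟩ | ⟨i, -, hi⟩) <;> exact ⟨i, hi⟩
    rw [e, preimage_union]
    refine AcQ.union (IsOpen.preimage hπ (isOpen_iUnion fun i => hU i.1))
      (IsOpen.preimage hπ (isOpen_iUnion fun i => hU i.1)) ?_ ?_ ?_
    · rw [preimage_iUnion]
      exact AcQ.iUnion (U := fun i : {i // l i = s + 1} => π ⁻¹' U i) (fun i => (hU i).preimage hπ)
        (fun i j hij => (hd i j (fun h => hij (Subtype.ext h)) (i.2.trans j.2.symm)).preimage π)
        fun i => h0 _ (hO i) (hc i) _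
    · exact ih {i // l i ≤ s} (fun i => U i) (fun i => l i) (fun i => hO i) (fun i => hU i)
        (fun i => hc i) (fun i => i.2) (fun i j hij => hd i j fun h => hij (Subtype.ext h)) (n + 1)
        (by omega)
    · have e2 : (⋃ i : {i // l i = s + 1}, U i) ∩ ⋃ i : {i // l i ≤ s}, U i =
          ⋃ i : {i // l i = s + 1} × {i // l i ≤ s}, U i.1 ∩ U i.2 := by
        ext x
        simp only [mem_inter_iff, mem_iUnion, Prod.exists]
        exact ⟨fun ⟨⟨i, hi⟩, j, hj⟩ => ⟨i, j, hi, hj⟩, fun ⟨i, j, hi, hj⟩ => ⟨⟨i, hi⟩, j, hj⟩⟩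
      rw [← preimage_inter, e2]
      refine ih _ _ (fun i => l i.2) (fun i => inter_subset_left.trans (hO _))
        (fun i => (hU _).inter (hU _)) (fun i => (hc _).inter (hc _))
        (fun i => i.2.2) (fun i j hij hl => ?_) n (by omega)
      by_cases h : i.2 = j.2
      · refine Disjoint.mono inter_subset_left inter_subset_left (hd _ _ (fun h' => hij ?_)
          (i.1.2.trans j.1.2.symm))
        exact Prod.ext (Subtype.ext h') h
      · exact Disjoint.mono inter_subset_right inter_subset_right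
          (hd _ _ (fun h' => h (Subtype.ext h')) hl)

section Cover

variable {M : Type*} [TopologicalSpace M] {p : X → M} {r : E → M} {O : Set E}

/-- the pull-back of a covering space -/
abbrev Pb (p : X → M) (r : E → M) (O : Set E) := {y : E × X // y.1 ∈ O ∧ r y.1 = p y.2}

omit [NormedSpace ℝ E] in
lemma lift_prism (hp : IsCoveringMap p) (hr : ContinuousOn r O) {S : Type*} [TopologicalSpace S]
    (f : C(S, X)) {F : ℝ × S → E} (hF : Continuous F) (hO : ∀ u ∈ Icc (0 : ℝ) 1, ∀ s, F (u, s) ∈ O)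
    (h0 : ∀ s, r (F (0, s)) = p (f s)) :
    ∃ H : C(S × Δ 1, Pb p r O), (∀ s t, (H (s, t)).1.1 = F (t.1 1, s)) ∧
      ∀ s, (H (s, vert 1 0)).1.2 = f s := by
  let G : C(unitInterval × S, M) := ⟨fun w => r (F (w.1, w.2)),
    hr.comp_continuous (by fun_prop) fun w => hO _ w.1.2 _⟩
  have h1 : Continuous fun x : S × Δ 1 => x.2.1 1 :=
    (continuous_apply 1).comp (continuous_subtype_val.comp continuous_snd)
  refine ⟨⟨fun x => ⟨(F (x.2.1 1, x.1), hp.liftHomotopy G f h0
      (⟨x.2.1 1, mem_Icc_of_mem_stdSimplex x.2.2 1⟩, x.1)),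
      hO _ (mem_Icc_of_mem_stdSimplex x.2.2 1) _,
      (congrFun (hp.liftHomotopy_lifts G f h0) (⟨_, _⟩, _)).symm⟩,
    ((hF.comp (h1.prodMk continuous_fst)).prodMk ((ContinuousMap.continuous _).comp
      ((h1.subtype_mk _).prodMk continuous_fst))).subtype_mk _⟩, fun _ _ => rfl, fun s => ?_⟩
  refine Eq.trans (congrArg (fun u => hp.liftHomotopy G f h0 (u, s)) (Subtype.ext ?_))
    (hp.liftHomotopy_zero G f h0 s)
  simp [vert]

lemma acq_convex (hp : IsCoveringMap p) (hr : ContinuousOn r O) (U : Set E) (hU : U ⊆ O)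
    (hc : Convex ℝ U) (n : ℕ) : AcQ q n ((fun y : Pb p r O => y.1.1) ⁻¹' U) := by
  intro v hv hb
  rcases U.eq_empty_or_nonempty with rfl | ⟨c, hcU⟩
  · simp [Ch_empty hv]
  obtain ⟨w, rfl⟩ := exists_lift hv
  rw [bd_push continuous_subtype_val.continuousOn (mem_Ch_univ w)] at hb
  replace hb := Qs_of_val hb
  have h1 : ∀ u ∈ Icc (0 : ℝ) 1, ∀ s : (fun y : Pb p r O => y.1.1) ⁻¹' U,
      (1 - u) • s.1.1.1 + u • c ∈ U := fun u hu s =>
    hc s.2 hcU (sub_nonneg.2 hu.2) hu.1 (sub_add_cancel _ _)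
  obtain ⟨H, a1, a2⟩ := lift_prism hp hr (S := (fun y : Pb p r O => y.1.1) ⁻¹' U)
    ⟨fun s => s.1.1.2, by fun_prop⟩ (F := fun x => (1 - x.1) • x.2.1.1.1 + x.1 • c) (by fun_prop)
    (fun u hu s => hU (h1 u hu s)) fun s => by simpa using s.1.2.2
  have h2 := homotopy_Q H (B := (fun y : Pb p r O => y.1.1) ⁻¹' U) (fun x => by
    rw [mem_preimage, a1]
    exact h1 _ (mem_Icc_of_mem_stdSimplex x.2.2 1) _) hb
  have e0 : (H.comp (lev _ 0) : _ → _) = Subtype.val := funext fun s =>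
    Subtype.ext (Prod.ext ((a1 s _).trans (by simp [vert])) (a2 s))
  have h3 := acq_const (q := q) (n := n) (F := (fun y : Pb p r O => y.1.1) ⁻¹' {c})
    (fun k σ hσ x y => by
      have := (convex_stdSimplex ℝ (Fin (k + 1))).isPreconnected
      have : PreconnectedSpace (Δ k) := isPreconnected_iff_preconnectedSpace.1 this
      have b : ∀ x, (σ x).1.1 = c := fun x => hσ ⟨x, rfl⟩
      refine Subtype.ext (Prod.ext ((b x).trans (b y).symm) (hp.const_of_comp
        (g := fun x => (σ x).1.2) (by fun_prop) (fun x y => ?_) x y))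
      rw [← (σ x).2.2, ← (σ y).2.2, b, b])
    (cmap (H.comp (lev _ 1)) (n + 1) w) (by
      rw [← push_eq_cmap]
      exact push_mem (ContinuousMap.continuous _).continuousOn
        (fun s _ => (a1 s _).trans (by simp [vert])) (mem_Ch_univ w))
    (by rw [bd_cmap]; exact Qs_map _ hb)
  have h4 := Submodule.add_mem _ h2
    (sup_le_sup_right (Bd_mono (preimage_mono (singleton_subset_iff.2 hcU))) _ h3)
  rwa [sub_add_cancel, ← push_eq_cmap, e0] at h4

end Cover

theorem cover_null {M : Type*} [TopologicalSpace M] [CompactSpace M] {m : ℕ}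
    {e : M → (Fin m → ℝ)} {r : (Fin m → ℝ) → M} (he : Continuous e)
    (hr : ContinuousOn r (Metric.thickening 10 (range e))) (hre : ∀ p, r (e p) = p)
    {h : ℝ × M → (Fin m → ℝ)} (hh : Continuous h) (h0 : ∀ p, h (0, p) = e p)
    (hn : ∀ u ∈ Icc (0 : ℝ) 1, ∀ p, ∃ q, ‖h (u, p) - e q‖ ≤ 1) {θ : Fin m → ℝ} (hθ : ‖θ‖ ≤ 1)
    {p : C(X, M)} (hp : IsCoveringMap p) {z : Chain (n + 1) X} (hb : bd n X z ∈ Qs q n X)
    (hz : z ∈ Ch (n + 1) {x | h (1, p x) - θ ∈ Wlt m (n + 1)}) :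
    z ∈ Bd (n + 1) univ ⊔ Qs q (n + 1) X := by
  have h1 : ∀ u ∈ Icc (0 : ℝ) 1, ∀ x : X, h (u, p x) - u • θ ∈ Metric.thickening 3 (range e) :=
    fun u hu x => by
      obtain ⟨y, hy⟩ := hn u hu (p x)
      refine mem_thick (mem_range_self y) hy ?_
      rw [norm_smul, Real.norm_of_nonneg hu.1]
      exact mul_le_one₀ hu.2 (norm_nonneg _) hθ
  obtain ⟨H, a1, a2⟩ := lift_prism hp hr (ContinuousMap.id X)
    (F := fun x => h (x.1, p x.2) - x.1 • θ) (by fun_prop)
    (fun u hu x => Metric.thickening_mono (by norm_num) _ (h1 u hu x)) fun s => by simp [h0, hre]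
  let I := {c : Finset (Fin m) × (Fin m → ℤ) //
    (piece c.1 c.2 ∩ Metric.thickening 3 (range e)).Nonempty ∧ c.1.card < n + 1}
  have : Finite I := ((finite_pieces ((isCompact_range he).isBounded.thickening (δ := 3))).subset
    fun p hp => hp.1).to_subtype
  have hA := acq_levels (q := q) (by fun_prop) (acq_convex hp hr) n I
    (fun c => piece c.1.1 c.1.2) (fun c => c.1.1.card)
    (fun c => (piece_thick c.2.1).trans (Metric.thickening_mono (by norm_num) _))
    (fun c => isOpen_piece _ _) (fun c => convex_piece _ _) (fun c => by have := c.2.2; omega)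
    (fun c c' hc e => disjoint_left.2 fun x hx hx' => hc
      (Subtype.ext (Prod.ext (piece_unique e hx hx').1 (piece_unique e hx hx').2))) _ le_rfl
    (cmap (H.comp (lev _ 1)) (n + 1) z) (by
      rw [← push_eq_cmap]
      refine push_mem (ContinuousMap.continuous _).continuousOn (fun x hx => ?_) hz
      have b : (H (x, vert 1 1)).1.1 = h (1, p x) - θ := (a1 x _).trans (by simp [vert])
      have b' : h (1, p x) - θ ∈ ⋃ c : I, piece c.1.1 c.1.2 :=
        mem_iUnion.2 ⟨⟨(intc _, _), ⟨_, mem_piece_intc _, by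
          simpa using h1 1 (right_mem_Icc.2 zero_le_one) x⟩, hx⟩, mem_piece_intc _⟩
      rw [← b] at b'
      exact b')
    (by rw [bd_cmap]; exact Qs_map _ hb)
  have h2 := Submodule.add_mem _ (homotopy_Q H (B := univ) (fun _ => trivial) hb)
    (sup_le_sup_right (Bd_mono (subset_univ _)) _ hA)
  rw [sub_add_cancel] at h2
  obtain ⟨b, b1, c, b2, b3⟩ := Submodule.mem_sup.1 h2
  have hc : Continuous fun y : Pb p r (Metric.thickening 10 (range e)) => y.1.2 := by fun_prop
  have h3 := Submodule.add_mem_sup (push_Bd hc.continuousOn (mapsTo_univ _ _) b1)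
    (Qs_map (push (fun y : Pb p r (Metric.thickening 10 (range e)) => y.1.2) (n + 1)) b2)
  have e0 : (fun y : Pb p r (Metric.thickening 10 (range e)) => y.1.2) ∘ H.comp (lev X 0) = id :=
    funext a2
  rwa [← map_add, b3, ← push_eq_cmap, push_push' (ContinuousMap.continuous _) hc, e0,
    push_id] at h3

end Pool.Agent.Lib.MP_d476f3_gt.St
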