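import Pool.Agent.Lib.MP_d476f3_gt.Stmt

open Set MeasureTheory
open scoped Manifold ContDiff ENNReal NNReal

noncomputable section

namespace Pool.Agent.Lib.MP_d476f3_gt.St

variable {E : Type*} [NormedAddCommGroup E] [NormedSpace ℝ E] {M : Type*} [TopologicalSpace M]
  [ChartedSpace E M] [IsManifold 𝓘(ℝ, E) ∞ M] [T2Space M] [CompactSpace M] {k : ℕ}

/-- the `k`-dimensional area of a singular `k`-simplex, counted with multiplicity: the integral of
the number of preimages of a point against the normalised `k`-dimensional Hausdorff measure -/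
def area (g : Stmt.RMetric E M) (σ : Stmt.Sing k M) : ℝ≥0∞ :=
  letI : EMetricSpace M := Stmt.rdist g
  letI : MeasurableSpace M := borel M
  haveI : BorelSpace M := ⟨rfl⟩
  ∫⁻ p, ({x | ContinuousMap.toFun σ x = p}.encard : ℝ≥0∞) ∂(Measure.euclideanHausdorffMeasure k)

/-- the singular simplex is Lipschitz for the Riemannian distance of `g` -/
def Lip (g : Stmt.RMetric E M) (σ : Stmt.Sing k M) : Prop :=
  ∃ L : ℝ≥0, ∀ x y,
    (Stmt.rdist g).edist (ContinuousMap.toFun σ x) (ContinuousMap.toFun σ y) ≤ L * edist x y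

/-- the mass of an integral chain -/
def mass (g : Stmt.RMetric E M) (c : Stmt.Chain k M) : ℝ≥0∞ :=
  ∑ σ ∈ c.support, ((c σ).natAbs : ℝ≥0∞) * area g σ

/-- the homology `(j+1)`-systole of all covering spaces, with coefficients `ℤ / q` for all `q`
(`q = 0` gives `ℤ`): the infimum, over the chains in a covering space that are cycles mod `q` but
not boundaries mod `q`, of their mass measured in `M` -/
def hsys (g : Stmt.RMetric E M) (j : ℕ) : ℝ≥0∞ :=
  ⨅ (X : Type) (_ : TopologicalSpace X) (p : C(X, M)) (_ : IsCoveringMap p) (q : ℕ)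
    (z : Stmt.Chain (j + 1) X) (_ : ∃ b : Stmt.Chain j X, Stmt.bd z = (q : ℤ) • b)
    (_ : ¬ ∃ (c : Stmt.Chain (j + 2) X) (u : Stmt.Chain (j + 1) X), z = Stmt.bd c + (q : ℤ) • u),
    ∑ σ ∈ z.support, ((z σ).natAbs : ℝ≥0∞) * area g (σ.along p)

/-- the stable `(j+1)`-systole: the infimum of `mass z / i` over the integral cycles `a` whose class
is not torsion, the integers `i ≥ 1` and the Lipschitz chains `z` homologous to `i • a` -/
def stsys (g : Stmt.RMetric E M) (j : ℕ) : ℝ≥0∞ :=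
  ⨅ (a : Stmt.Chain (j + 1) M) (_ : Stmt.bd a = 0)
    (_ : ∀ N : ℤ, N ≠ 0 → ¬ ∃ b : Stmt.Chain (j + 2) M, Stmt.bd b = N • a)
    (i : ℕ) (_ : i ≠ 0) (z : Stmt.Chain (j + 1) M)
    (_ : ∃ b : Stmt.Chain (j + 2) M, Stmt.bd b = z - (i : ℤ) • a) (_ : ∀ σ ∈ z.support, Lip g σ),
    mass g z / i

end Pool.Agent.Lib.MP_d476f3_gt.St
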