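import Pool.Agent.Lib.MP_d476f3_gt.St.Inv

open Set Finsupp Filter Topology

noncomputable section

namespace Pool.Agent.Lib.MP_d476f3_gt.St

lemma exists_lattice {Γ : Type*} [Fintype Γ] (B : Submodule ℤ (Γ → ℤ)) :
    ∃ C : ℕ, ∀ (u v : Γ → ℤ) (i : ℤ), v - i • u ∈ B → (∀ N : ℤ, N ≠ 0 → N • u ∉ B) →
      |i| ≤ C * ∑ f, |v f| := by
  classical
  let T := Submodule.torsion ℤ ((Γ → ℤ) ⧸ B)
  let b := Module.Free.chooseBasis ℤ (((Γ → ℤ) ⧸ B) ⧸ T)
  let l : _ → (Γ → ℤ) →ₗ[ℤ] ℤ := fun s => b.coord s ∘ₗ T.mkQ ∘ₗ B.mkQ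
  refine ⟨∑ s, ∑ f, (l s (Pi.single f 1)).natAbs, fun u v i h1 h2 => ?_⟩
  obtain ⟨s, hs⟩ : ∃ s, l s u ≠ 0 := by
    by_contra! h
    have h3 : T.mkQ (B.mkQ u) = 0 := b.forall_coord_eq_zero_iff.1 h
    obtain ⟨N, hN⟩ := (Submodule.Quotient.mk_eq_zero T).1 h3
    refine h2 N (nonZeroDivisors.coe_ne_zero N) ((Submodule.Quotient.mk_eq_zero B).1 ?_)
    exact (map_smul B.mkQ _ _).trans hN
  have h3 : l s v = i * l s u := by
    have : B.mkQ (v - i • u) = 0 := (Submodule.Quotient.mk_eq_zero B).2 h1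
    rw [← smul_eq_mul, ← map_smul, ← sub_eq_zero, ← map_sub]
    simp only [l, LinearMap.comp_apply, this, map_zero]
  have h4 : l s v = ∑ f, v f * l s (Pi.single f 1) := by
    conv_lhs => rw [pi_eq_sum_univ' v]
    simp only [map_sum, map_smul, smul_eq_mul]
  calc |i| ≤ |l s v| := by
        rw [h3, abs_mul]
        exact le_mul_of_one_le_right (abs_nonneg _) (Int.one_le_abs hs)
    _ ≤ ∑ f, |v f| * |l s (Pi.single f 1)| := by
        rw [h4]
        exact (Finset.abs_sum_le_sum_abs _ _).trans_eq (by simp only [abs_mul])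
    _ ≤ _ := by
        rw [Finset.mul_sum]
        refine Finset.sum_le_sum fun f _ => ?_
        rw [mul_comm]
        refine mul_le_mul_of_nonneg_right ?_ (abs_nonneg _)
        rw [← Int.natCast_natAbs, Nat.cast_le]
        exact (Finset.single_le_sum (f := fun f => (l s (Pi.single f 1)).natAbs)
          (fun _ _ => Nat.zero_le _) (Finset.mem_univ f)).trans (Finset.single_le_sum
            (f := fun s => ∑ f, (l s (Pi.single f 1)).natAbs) (fun _ _ => Nat.zero_le _)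
            (Finset.mem_univ s))

lemma exists_family_rel {X : Type*} [TopologicalSpace X] {ι : Type*} {U : ι → Set X}
    (hU : ∀ i, IsOpen (U i)) (hd : Pairwise (Function.onFun Disjoint U)) [Fintype ι] {n : ℕ}
    {A V : Set X} (hV : IsOpen V) (hA : A ⊆ (⋃ i, U i) ∪ V) {w : Chain (n + 1) X}
    (hw : w ∈ Ch (n + 1) A) (hb : bd n X w ∈ Ch n V) :
    ∃ (u : ι → Chain (n + 1) X) (w2 : Chain (n + 1) X), (∀ i, u i ∈ Ch (n + 1) (U i ∩ A)) ∧
      w2 ∈ Ch (n + 1) (A ∩ V) ∧ w - (∑ i, u i + w2) ∈ Bd (n + 1) A ∧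
      ∀ i, bd n X (u i) ∈ Ch n (U i ∩ V) := by
  obtain ⟨w1, a1, w2, a2, a3⟩ := exists_rel (isOpen_iUnion hU) hV hA hw hb
  have h1 := Ch_mono inter_subset_right a1
  refine ⟨fun i => part (n + 1) (U i) w1, w2, fun i => part_mem _ (Ch_mono inter_subset_left a1),
    a2, by rwa [sum_part hU hd h1], fun i => ?_⟩
  rw [bd_part hU hd h1]
  exact part_mem _ (Ch_mono inter_subset_right
    (bd_decomp' hb h1 (Ch_mono inter_subset_right a2) a3).1)

variable {m k n : ℕ}

lemma face_bound (f : Face m k) {v : Chain n (Fin m → ℝ)}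
    (hv : v ∈ Rc n (f.U ∩ Wlt m k)) (h : push f.π n v ∈ Bd n {0}ᶜ) :
    v ∈ Bd n (f.U ∩ Wlt m k) := by
  classical
  obtain ⟨c, hc, hc'⟩ := h
  obtain ⟨R, hR, hcR⟩ := exists_ball c
  let s : (Fin k → ℝ) → (Fin m → ℝ) := fun y t =>
    (if t ∈ f.1.1 then (f.2 t : ℝ) else f.2 t + 1 / 2) +
      ∑ j, if f.1.emb j = t then (2 * R)⁻¹ * y j else 0
  have hs : Continuous s := continuous_pi fun t => continuous_const.add
    (continuous_finsetSum _ fun j _ => by split_ifs <;> fun_prop)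
  have s1 : ∀ y j, s y (f.1.emb j) = f.2 (f.1.emb j) + (2 * R)⁻¹ * y j := fun y j => by
    simp [s, f.1.emb_mem]
  have s2 : ∀ y, ∀ t ∉ f.1.1, s y t = f.2 t + 1 / 2 := fun y t ht => by
    have : ∀ j, f.1.emb j ≠ t := fun j e => ht (e ▸ f.1.emb_mem j)
    simp [s, ht, this]
  have s3 : ∀ y, f.π (s y) = (2 * R)⁻¹ • y := fun y => funext fun j => by simp [Face.π, s1]
  have s4 : ∀ y ∈ Metric.ball 0 R, s y ∈ f.U := fun y hy => by
    have : ∀ t ∈ f.1.1, |s y t - f.2 t| < 1 / 2 := fun t ht => by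
      obtain ⟨j, rfl⟩ := f.1.exists_emb ht
      have := (norm_le_pi_norm y j).trans_lt (mem_ball_zero_iff.1 hy)
      rw [s1, add_sub_cancel_left, abs_mul, abs_of_pos (by positivity), inv_mul_lt_iff₀
        (by positivity)]
      rw [Real.norm_eq_abs] at this
      linarith
    refine ⟨this, fun t ht => ?_, fun t ht u hu => ?_⟩
    · rw [s2 y t ht]; constructor <;> linarith
    · rw [s2 y u hu]; constructor <;> linarith [this t ht]
  have hR' : 0 < (2 * R)⁻¹ := by positivity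
  have h1 := bd_mem_Bd (push_mem (B := f.U ∩ Wlt m k) hs.continuousOn (fun y hy =>
    ⟨s4 y hy.2, f.Wlt_of_ne (s4 y hy.2) (by rw [s3]; exact smul_ne_zero hR'.ne' hy.1)⟩)
    (Ch_inter hc hcR))
  rw [bd_push hs.continuousOn (mem_Ch_univ _), hc', push_push' f.continuous_π hs] at h1
  have h2 := push_sub_push' (B := f.U ∩ Wlt m k) (hs.comp f.continuous_π).continuousOn
    continuousOn_id (fun x hx y hy => by
      have hx' : f.π x ∈ Metric.ball 0 R := by
        rw [mem_ball_zero_iff, pi_norm_lt_iff (by positivity)]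
        exact fun j => (piece_near hx.1 _).trans_le hR
      have hy' := (convex_piece _ _).segment_subset (s4 _ hx') hx.1 hy
      refine ⟨hy', f.Wlt_of_ne hy' ?_⟩
      obtain ⟨a, b, ha, hb, hab, rfl⟩ := hy
      have e : f.π (a • (s ∘ f.π) x + b • id x) = (a * (2 * R)⁻¹ + b * 1) • f.π x := by
        obtain rfl : b = 1 - a := by linarith
        funext j
        simp only [Face.π, Function.comp_apply, Pi.add_apply, Pi.smul_apply, s1, id, smul_eq_mul]
        ring
      rw [e]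
      exact smul_ne_zero (cvx_lt ha hb hab hR' one_pos).ne' (f.ne_of_Wlt hx.2)) hv.1
        (Zc_of_Bd hv.2)
  rw [push_id] at h2
  simpa using Submodule.add_mem _ h2 h1

variable (W : Inv (Fin k → ℝ) n)

/-- the intersection number with a face -/
def Inv.D (f : Face m k) (w : Chain (n + 1) (Fin m → ℝ)) : ℤ := W.deg f.U f.V f.π w

lemma rel_face (f : Face m k) {v : Chain (n + 1) (Fin m → ℝ)}
    (hv : v ∈ Rel n (Wle m k) (Wlt m k)) : v ∈ Rel n (f.U ∪ f.V) f.V :=
  ⟨f.union ▸ hv.1, Ch_mono subset_union_left hv.2⟩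

/-- the intersection number as a homomorphism -/
def Inv.Dh (f : Face m k) : Rel n (Wle m k) (Wlt m k) →+ ℤ :=
  AddMonoidHom.mk' (fun w => W.D f w) fun v w =>
    W.deg_add (isOpen_piece _ _) f.isOpen_V f.continuous_π f.mapsTo (rel_face f v.2)
      (rel_face f w.2)

open Classical in
lemma Inv.D_eq {ι : Type*} [Fintype ι] (φ : ι → Face m k) {w w2 : Chain (n + 1) (Fin m → ℝ)}
    {u : ι → Chain (n + 1) (Fin m → ℝ)} (hw : bd n _ w ∈ Ch n (Wlt m k))
    (hu : ∀ i, u i ∈ Ch (n + 1) (φ i).U) (h2 : w2 ∈ Ch (n + 1) (Wlt m k))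
    (h : w - (∑ i, u i + w2) ∈ Bd (n + 1) (Wle m k))
    (hb : ∀ i, bd n _ (u i) ∈ Ch n (Wlt m k)) (f : Face m k) :
    W.D f w = ∑ i with φ i = f, W.ω (push f.π n (bd n _ (u i))) := by
  rw [Inv.D, W.deg_eq (U := f.U) (isOpen_piece _ _) f.isOpen_V f.continuous_π f.mapsTo
    (Ch_mono subset_union_left hw)
    (w1 := ∑ i with φ i = f, u i) (w2 := ∑ i with ¬ φ i = f, u i + w2), map_sum, map_sum, W.sum]
  · exact fun i => push_Rc f.continuous_π (fun x hx => f.ne_of_Wlt hx) (bd_mem_Rc (hb i))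
  · exact Submodule.sum_mem _ fun i hi => (Finset.mem_filter.1 hi).2 ▸ hu i
  · refine Submodule.add_mem _ (Submodule.sum_mem _ fun i hi => Ch_mono ?_ (hu i))
      (Ch_mono subset_union_left h2)
    exact fun x hx => Or.inr (mem_iUnion.2 ⟨⟨φ i, (Finset.mem_filter.1 hi).2⟩, hx⟩)
  · rwa [← add_assoc, Finset.sum_filter_add_sum_filter_not, f.union]

lemma Inv.D_ker (hk : k = n + 1) {K : Set (Fin m → ℝ)} (hK : Bornology.IsBounded K)
    {w : Chain (n + 1) (Fin m → ℝ)} (hw : w ∈ Cy n (Metric.thickening 3 K ∩ Wle m k))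
    (h : ∀ f : Near k K, W.D f.1 w = 0) : w ∈ Bd (n + 1) (Metric.thickening 10 K) := by
  classical
  have := finite_Near (k := k) hK
  cases nonempty_fintype (Near k K)
  have hw2 : bd n _ w = 0 := hw.2
  obtain ⟨u, w2, h1, h2, h3, h4⟩ := exists_family_decomp (U := fun f : Near k K => f.1.U)
    (fun f => isOpen_piece _ _) (fun f f' e => Face.disjoint fun e' => e (Subtype.ext e'))
    isOpen_Wlt (near_cover K) hw.1 hw2
  have h5 : ∀ f : Near k K, ∃ c ∈ Ch (n + 1) (f.1.U ∩ Wlt m k),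
      bd n _ c = bd n _ (u f) := fun f => by
    refine face_bound f.1 (bd_mem_Rc (h4 f)) ((W.ker _ (push_Rc f.1.continuous_π
      (fun x hx => f.1.ne_of_Wlt hx.2) (bd_mem_Rc (h4 f)))).1 ?_)
    have := W.D_eq (fun f : Near k K => f.1) (hw2 ▸ Submodule.zero_mem _)
      (fun f => Ch_mono inter_subset_left (h1 f))
      (Ch_mono inter_subset_right h2) (Bd_mono inter_subset_right h3)
      (fun f => Ch_mono inter_subset_right (h4 f)) f.1
    rw [h, Finset.sum_eq_single_of_mem f (by simp)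
      fun g hg e => absurd (Subtype.ext (Finset.mem_filter.1 hg).2) e] at this
    exact this.symm
  choose c hc hc' using h5
  have hU : ∀ f : Near k K, f.1.U ⊆ Metric.thickening 5 K := fun f =>
    (piece_thick f.2).trans (Metric.thickening_mono (by norm_num) _)
  let I := {p : Finset (Fin m) × (Fin m → ℤ) //
    (piece p.1 p.2 ∩ Metric.thickening 5 K).Nonempty ∧ p.1.card < k}
  have : Finite I := ((finite_pieces (hK.thickening (δ := 5))).subset fun p hp => hp.1).to_subtype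
  have hA := acyc_levels n I (fun p => piece p.1.1 p.1.2) (fun p => p.1.1.card)
    (fun p => isOpen_piece _ _) (fun p => convex_piece _ _) (fun p => by have := p.2.2; omega)
    (fun p q hpq e => disjoint_left.2 fun x hx hx' => hpq
      (Subtype.ext (Prod.ext (piece_unique e hx hx').1 (piece_unique e hx hx').2))) _ le_rfl
  have hV : Metric.thickening 5 K ∩ Wlt m k ⊆ ⋃ p : I, piece p.1.1 p.1.2 := fun x hx =>
    mem_iUnion.2 ⟨⟨(intc x, _), ⟨x, mem_piece_intc x, hx.1⟩, hx.2⟩, mem_piece_intc x⟩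
  have h6 := hA (∑ f, c f + w2) (Ch_mono hV (Submodule.add_mem _ (Submodule.sum_mem _ fun f _ =>
    Ch_mono (inter_subset_inter_left _ (hU f)) (hc f)) (Ch_mono (inter_subset_inter_left _
      (inter_subset_left.trans (Metric.thickening_mono (by norm_num) _))) h2))) (by
        have := bd_of_mem_Bd h3
        rw [map_sub, hw2, zero_sub, neg_eq_zero, map_add, map_sum] at this
        rw [map_add, map_sum]
        simpa only [hc'] using this)
  have h7 : ∑ f, (u f - c f) ∈ Bd (n + 1) (Metric.thickening 10 K) :=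
    Submodule.sum_mem _ fun f _ => Bd_mono ((hU f).trans (Metric.thickening_mono (by norm_num) _))
      (acyc_of_convex (convex_piece _ _) _ _ (Submodule.sub_mem _
        (Ch_mono inter_subset_left (h1 f)) (Ch_mono inter_subset_left (hc f)))
        (by rw [map_sub, hc', sub_self]))
  have h8 := Bd_mono (iUnion_subset fun p : I => (piece_thick p.2.1).trans
    (Metric.thickening_mono (by norm_num : (5 : ℝ) + 2 ≤ 10) _)) h6
  have h9 := Bd_mono (inter_subset_left.trans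
    (Metric.thickening_mono (by norm_num : (3 : ℝ) ≤ 10) K)) h3
  have := Submodule.add_mem _ h9 (Submodule.add_mem _ h7 h8)
  rw [Finset.sum_sub_distrib] at this
  exact (congrArg (· ∈ _) (by abel)).mp this

lemma cy_rel {A : Set (Fin m → ℝ)} {w : Chain (n + 1) (Fin m → ℝ)} (hw : w ∈ Cy n (A ∩ Wle m k)) :
    w ∈ Rel n (Wle m k) (Wlt m k) :=
  ⟨Ch_mono inter_subset_right hw.1, by
    have : bd n _ w = 0 := hw.2
    simp [this]⟩

theorem Inv.lattice (hk : k = n + 1) {K : Set (Fin m → ℝ)} (hK : Bornology.IsBounded K) :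
    ∃ C : ℕ, ∀ w ∈ Cy n (Metric.thickening 3 K ∩ Wle m k),
      ∀ w0 ∈ Cy n (Metric.thickening 3 K ∩ Wle m k), ∀ i : ℤ,
      w - i • w0 ∈ Bd (n + 1) (Metric.thickening 10 K) →
      (∀ N : ℤ, N ≠ 0 → N • w0 ∉ Bd (n + 1) (Metric.thickening 10 K)) →
      ∀ J : ℤ, (∀ f : Face m k, |W.D f w| ≤ J) → |i| ≤ C * J := by
  have := finite_Near (k := k) hK
  cases nonempty_fintype (Near k K)
  let Dh : Cy n (Metric.thickening 3 K ∩ Wle m k) →+ (Near k K → ℤ) :=
    AddMonoidHom.mk' (fun w f => W.D f.1 w) fun v w => funext fun f =>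
      (W.Dh f.1).map_add ⟨v, cy_rel v.2⟩ ⟨w, cy_rel w.2⟩
  obtain ⟨C, H⟩ := exists_lattice
    (((Bd (n + 1) (Metric.thickening 10 K)).comap (Submodule.subtype _)).map Dh.toIntLinearMap)
  refine ⟨C * Fintype.card (Near k K), fun w hw w0 hw0 i h h1 J h2 => ?_⟩
  refine (H (Dh ⟨w0, hw0⟩) (Dh ⟨w, hw⟩) i ⟨⟨w, hw⟩ - i • ⟨w0, hw0⟩, h, by
    rw [map_sub, map_smul]; rfl⟩ ?_).trans ?_
  · rintro N hN ⟨v, hv, hv'⟩
    have h0 : Dh (N • ⟨w0, hw0⟩ - v) = 0 := by
      rw [map_sub, map_zsmul, sub_eq_zero]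
      exact hv'.symm
    have := W.D_ker hk hK (Submodule.sub_mem _ (Submodule.smul_mem _ N hw0) v.2)
      fun f => congrFun h0 f
    exact h1 N hN (by simpa using Submodule.add_mem _ this hv)
  · push_cast
    rw [mul_assoc]
    refine mul_le_mul_of_nonneg_left ?_ (Nat.cast_nonneg _)
    exact (Finset.sum_le_card_nsmul _ _ J fun f _ => h2 f.1).trans_eq (by simp)

end Pool.Agent.Lib.MP_d476f3_gt.St
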