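import Pool.Agent.Lib.MP_d476f3_gt.St.Loc
import Pool.Agent.Lib.MP_d476f3_gt.Tau

open Set MeasureTheory Filter Topology
open scoped ENNReal NNReal

noncomputable section

namespace Pool.Agent.Lib.MP_d476f3_gt.St

variable {m k : ℕ}

lemma dist_le_co (x y : Δ k) : dist x y ≤ (k + 1 : ℝ≥0) * dist (co k x) (co k y) := by
  have h0 : ∀ j, |co k x j - co k y j| ≤ dist (co k x) (co k y) := fun j =>
    dist_le_pi_dist (co k x) (co k y) j
  have h1 : (0 : ℝ) ≤ dist (co k x) (co k y) := dist_nonneg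
  refine (dist_pi_le_iff (by positivity)).2 fun i => Fin.cases ?_ (fun j => ?_) i
  · rw [Real.dist_eq, zero_co, zero_co, sub_sub_sub_cancel_left, abs_sub_comm,
      ← Finset.sum_sub_distrib]
    refine (Finset.abs_sum_le_sum_abs _ _).trans ((Finset.sum_le_card_nsmul _ _ _
      fun j _ => h0 j).trans ?_)
    simp only [Finset.card_univ, Fintype.card_fin, nsmul_eq_mul]
    push_cast
    nlinarith
  · refine (h0 j).trans (le_mul_of_one_le_left h1 ?_)
    push_cast
    linarith [Nat.cast_nonneg (α := ℝ) k]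

lemma exists_ext {ι : Type} [Fintype ι] {g : Δ k → (ι → ℝ)} {C : ℝ≥0} (hg : LipschitzWith C g) :
    ∃ (G : (Fin k → ℝ) → (ι → ℝ)) (C' : ℝ≥0), LipschitzWith C' G ∧ ∀ x, G (co k x) = g x := by
  have : Nonempty (Δ k) := ⟨vert k 0⟩
  have h0 : ∀ x, (g ∘ Function.invFun (co k)) (co k x) = g x := fun x =>
    congrArg g (Function.leftInverse_invFun co_inj x)
  have h : LipschitzOnWith (C * (k + 1)) (g ∘ Function.invFun (co k)) (range (co k)) :=
    LipschitzOnWith.of_dist_le_mul (by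
      rintro _ ⟨x, rfl⟩ _ ⟨y, rfl⟩
      rw [h0, h0, NNReal.coe_mul, mul_assoc]
      exact (hg.dist_le_mul x y).trans (mul_le_mul_of_nonneg_left (dist_le_co x y) C.2))
  obtain ⟨G, hG, hG'⟩ := h.extend_pi
  exact ⟨G, _, hG, fun x => (hG' (mem_range_self x)).symm.trans (h0 x)⟩

lemma range_null' {g : Δ k → (Fin (k + 1) → ℝ)} {C : ℝ≥0} (hg : LipschitzWith C g) :
    volume (range g) = 0 := by
  obtain ⟨G, C', hG, hG'⟩ := exists_ext hg
  have h1 := hausdorffMeasure_pi_real (ι := Fin (k + 1))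
  refine measure_mono_null (t := range G) (by rintro _ ⟨x, rfl⟩; exact ⟨_, hG' x⟩) ?_
  rw [← h1]
  have h2 := hausdorffMeasure_of_dimH_lt (s := range G) (d := (k + 1 : ℕ))
    (hG.dimH_range_le.trans_lt (by
      rw [Real.dimH_univ_pi_fin]
      exact_mod_cast Nat.lt_succ_self k))
  simpa using h2

lemma level_null (l : (Fin k → ℝ) →ₗ[ℝ] ℝ) (hl : l ≠ 0) (c : ℝ) : volume {y | l y = c} = 0 := by
  rcases eq_empty_or_nonempty {y | l y = c} with h | ⟨y, hy⟩
  · rw [h, measure_empty]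
  have : {y | l y = c} = (fun z => z + -y) ⁻¹' (LinearMap.ker l) := by
    ext z
    simp [add_neg_eq_zero, show l y = c from hy]
  rw [this, measure_preimage_add_right]
  exact Measure.addHaar_submodule _ _ (by rwa [Ne, LinearMap.ker_eq_top])

lemma irreg_null (hk : 0 < k) {g : Δ k → (Fin k → ℝ)} {C : ℝ≥0} (hg : LipschitzWith C g) :
    volume (g '' {x | ¬ Reg g x}) = 0 := by
  obtain ⟨G, C', hG, hG'⟩ := exists_ext hg
  have : Nonempty (Fin k) := ⟨⟨0, hk⟩⟩
  have h1 : ∀ s, volume s = 0 → volume (G '' s) = 0 := fun s hs => by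
    have h4 := hG.hausdorffMeasure_image_le (d := k) (by positivity) s
    have h5 := hausdorffMeasure_pi_real (ι := Fin k)
    rw [Fintype.card_fin] at h5
    rw [h5, hs, mul_zero] at h4
    exact nonpos_iff_eq_zero.1 h4
  have h2 : ∀ᵐ y : Fin k → ℝ, (∀ j, y j ≠ 0) ∧ ∑ j, y j ≠ 1 ∧ DifferentiableAt ℝ G y := by
    refine (eventually_all.2 fun j => ?_).and (Eventually.and ?_ hG.ae_differentiableAt)
    · exact compl_mem_ae_iff.2 (level_null (LinearMap.proj j) (fun h => by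
        simpa using LinearMap.congr_fun h 1) 0)
    · refine compl_mem_ae_iff.2 (measure_mono_null ?_ (level_null (∑ j, LinearMap.proj j)
        (fun h => by simpa [hk.ne'] using LinearMap.congr_fun h 1) 1))
      intro y hy
      have hy : ∑ j, y j = 1 := hy
      simpa using hy
  have h3 := addHaar_image_eq_zero_of_det_fderivWithin_eq_zero volume (f := G)
    (s := {y | DifferentiableAt ℝ G y ∧ (fderiv ℝ G y).det = 0}) (f' := fderiv ℝ G)
    (fun y hy => hy.1.hasFDerivAt.hasFDerivWithinAt) fun y hy => hy.2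
  refine measure_mono_null ?_ (measure_union_null (h1 _ h2) h3)
  rintro _ ⟨x, hx, rfl⟩
  by_contra h
  rw [mem_union, not_or, ← hG'] at h
  obtain ⟨a1, a2, a3⟩ := not_not.1 fun e => h.1 (mem_image_of_mem G e)
  have a4 : (fderiv ℝ G (co k x)).det ≠ 0 := fun e => h.2 (mem_image_of_mem G ⟨a3, e⟩)
  let L := (fderiv ℝ G (co k x)).toContinuousLinearEquivOfDetNeZero a4
  refine hx ⟨fun i => (x.2.1 i).lt_of_ne' (Fin.cases (motive := fun i => x.1 i ≠ 0)
    ((zero_co x).trans_ne (sub_ne_zero.2 a2.symm)) (fun j => a1 j) i), L, ?_⟩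
  have a5 := (a3.hasFDerivAt.isLittleO.trans_isBigO (L.isBigO_sub_rev _ _)).bound one_half_pos
  refine ((co_cont.tendsto x).eventually a5).mono fun p hp hpx => ?_
  rw [hG', hG'] at hp
  have : 0 < ‖L (co k p - co k x)‖ := by
    rw [norm_pos_iff, Ne, L.map_eq_zero_iff, sub_eq_zero]
    exact fun e => hpx (co_inj e)
  exact lt_of_le_of_lt hp (by linarith)

lemma cube_avoid {κ : Type} [Fintype κ] (T : κ ↪ Fin m) {E : Set (κ → ℝ)} (hE : volume E = 0) :
    ∀ᵐ θ ∂cube (Fin m), ∀ c : κ → ℤ, (fun j => θ (T j) + (c j : ℝ)) ∉ E := by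
  refine eventually_countable_forall.2 fun c => compl_mem_ae_iff.2 (nonpos_iff_eq_zero.1 ?_)
  refine (cube_proj_le T ((fun y => y + fun j => (c j : ℝ)) ⁻¹' E)).trans_eq ?_
  rw [measure_preimage_add_right, hE]

lemma lip_proj {X : Type*} [PseudoEMetricSpace X] {y : X → (Fin m → ℝ)} {C : ℝ≥0}
    (hy : LipschitzWith C y) {l : ℕ} (T : Dir m l) : LipschitzWith C fun x j => y x (T.emb j) :=
  fun p q => edist_pi_le_iff.2 fun j => (edist_le_pi_edist _ _ _).trans (hy p q)

lemma generic_Wle {y : Δ k → (Fin m → ℝ)} {C : ℝ≥0} (hy : LipschitzWith C y) :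
    ∀ᵐ θ ∂cube (Fin m), ∀ x, y x - θ ∈ Wle m k := by
  filter_upwards [eventually_all.2 fun T : Dir m (k + 1) =>
    cube_avoid T.emb (range_null' (lip_proj hy T))] with θ h x
  by_contra h1
  obtain ⟨T, hT, hT'⟩ := Finset.exists_subset_card_eq
    (Nat.succ_le_of_lt (not_le.1 h1) : k + 1 ≤ (intc (y x - θ)).card)
  choose c hc using fun j => mem_intc.1 (hT (Dir.emb_mem ⟨T, hT'⟩ j))
  exact h ⟨T, hT'⟩ c ⟨x, funext fun j => eq_add_of_sub_eq' (hc j)⟩

lemma generic_Reg (hk : 0 < k) {y : Δ k → (Fin m → ℝ)} {C : ℝ≥0} (hy : LipschitzWith C y) :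
    ∀ᵐ θ ∂cube (Fin m), ∀ x (f : Face m k), f.π (y x - θ) = 0 →
      Reg (fun p => f.π (y p - θ)) x := by
  filter_upwards [eventually_all.2 fun T : Dir m k =>
    cube_avoid T.emb (irreg_null hk (lip_proj hy T))] with θ h x f hf
  have h1 : Reg (fun p j => y p (f.1.emb j)) x := by
    by_contra h1
    refine h f.1 (fun j => f.2 (f.1.emb j)) ⟨x, h1, funext fun j => ?_⟩
    exact eq_add_of_sub_eq' (sub_eq_zero.1 (congrFun hf j))
  obtain ⟨h2, L, h3⟩ := h1
  refine ⟨h2, L, h3.mono fun p hp hpx => ?_⟩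
  have : f.π (y p - θ) - f.π (y x - θ) =
      (fun j => y p (f.1.emb j)) - fun j => y x (f.1.emb j) := funext fun j => by simp [Face.π]
  simpa only [this] using hp hpx

end Pool.Agent.Lib.MP_d476f3_gt.St
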