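import Pool.Agent.Lib.MP_d476f3_gt.Grid
import Pool.Agent.Lib.MP_d476f3_gt.Mu

open Set Finsupp Filter Topology

noncomputable section

namespace Pool.Agent.Lib.MP_d476f3_gt.St

variable {X Y : Type*} [TopologicalSpace X] [TopologicalSpace Y]

/-- cycles in every degree -/
def Zc : ∀ (n : ℕ), Chain n X → Prop
  | 0, _ => True
  | n + 1, v => bd n X v = 0

lemma Zc_of_Bd {n : ℕ} {A : Set X} {v : Chain n X} (h : v ∈ Bd n A) : Zc n v := by
  cases n with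
  | zero => trivial
  | succ n => exact bd_of_mem_Bd h

lemma Sd_zero (v : Chain 0 X) : Sd 0 X v = v := by
  refine lin_ext (g := LinearMap.id) (fun σ => ?_) v
  have h : lsd (bary 0) 1 (single (vert 0) 1) = single (vert 0) 1 := by
    rw [lsd_single, lbd_single]
    simp only [lsd, Fin.sum_univ_succ, Finset.univ_eq_empty, Finset.sum_empty, add_zero,
      LinearMap.id_apply, Fin.val_zero, pow_zero, one_smul, lcone_single]
    exact congrArg (single · 1) (Subsingleton.elim _ _)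
  simp only [Sd, linearCombination_single, one_smul, h, R_vert, LinearMap.id_apply]

lemma sub_Sd_Zc {n : ℕ} {A : Set X} {v : Chain n X} (hv : v ∈ Ch n A) (hz : Zc n v) (N : ℕ) :
    v - (Sd n X ^ N : Module.End ℤ _) v ∈ Bd n A := by
  cases n with
  | succ n => exact mem_Bd_of_sup_empty (sub_Sd_pow (B := ∅) hv (by rw [show bd n X v = 0 from hz]; simp) N)
  | zero =>
    have : (Sd 0 X ^ N : Module.End ℤ _) v = v := by
      induction N with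
      | zero => rfl
      | succ N ih => rw [pow_succ', Module.End.mul_apply, ih, Sd_zero]
    simp [this]

lemma mv_unique' {n : ℕ} {U V : Set X} (hU : IsOpen U) (hV : IsOpen V) {w1 w2 : Chain (n + 1) X}
    (h1 : w1 ∈ Ch (n + 1) U) (h2 : w2 ∈ Ch (n + 1) V) (h : w1 + w2 ∈ Bd (n + 1) (U ∪ V)) :
    bd n X w1 ∈ Bd n (U ∩ V) := by
  obtain ⟨c, hc, hcw⟩ := h
  obtain ⟨N, hN⟩ := exists_small hU hV Subset.rfl hc
  obtain ⟨c1, hc1, c2, hc2, hc'⟩ := Submodule.mem_sup.1 hN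
  have h3 := congrArg (bd (n + 1) X) hc'
  rw [bd_Sd_pow, hcw, map_add, map_add] at h3
  have hx : (Sd (n + 1) X ^ N : Module.End ℤ _) w1 - bd (n + 1) X c1 ∈ Ch (n + 1) (U ∩ V) := by
    refine Ch_inter (Submodule.sub_mem _ (Sd_pow_mem h1 N)
      (Ch_mono inter_subset_right (bd_mem hc1))) ?_
    have : (Sd (n + 1) X ^ N : Module.End ℤ _) w1 - bd (n + 1) X c1 =
        bd (n + 1) X c2 - (Sd (n + 1) X ^ N : Module.End ℤ _) w2 := by
      rw [sub_eq_sub_iff_add_eq_add, ← h3]; abel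
    rw [this]
    exact Submodule.sub_mem _ (Ch_mono inter_subset_right (bd_mem hc2)) (Sd_pow_mem h2 N)
  have hb := bd_mem_Bd hx
  rw [map_sub, bd_bd, sub_zero, bd_Sd_pow] at hb
  have h4 : bd n X w1 ∈ Ch n (U ∩ V) := by
    refine Ch_inter (bd_mem h1) ?_
    have : bd n X w1 + bd n X w2 = 0 := by rw [← map_add, ← hcw, bd_bd]
    rw [eq_neg_of_add_eq_zero_left this]
    exact Submodule.neg_mem _ (bd_mem h2)
  have h5 := sub_Sd_Zc h4 (Zc_of_Bd (bd_mem_Bd h1)) N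
  simpa using Submodule.add_mem _ h5 hb

section Lin

variable {E : Type*} [NormedAddCommGroup E] [NormedSpace ℝ E]

lemma seg_Bd {B : Set E} {x y : E} (h : segment ℝ x y ⊆ B) :
    single (ContinuousMap.const (Δ 0) y) (1 : ℤ) - single (ContinuousMap.const (Δ 0) x) 1 ∈
      Bd 0 B := by
  let s : C(Δ 1, E) := ⟨fun t => t.1 0 • x + t.1 1 • y,
    (((continuous_apply 0).comp continuous_subtype_val).smul continuous_const).add
      (((continuous_apply 1).comp continuous_subtype_val).smul continuous_const)⟩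
  have h1 := bd_mem_Bd (single_mem_Ch (A := B) (σ := s) (by
    rintro _ ⟨t, rfl⟩
    exact h ⟨t.1 0, t.1 1, t.2.1 0, t.2.1 1, by simpa [Fin.sum_univ_two] using t.2.2, rfl⟩) 1)
  rw [bd_one] at h1
  simpa [s, vert] using h1

lemma push_sub_push' {f g : X → E} {A : Set X} {B : Set E} (hf : ContinuousOn f A)
    (hg : ContinuousOn g A) (h : ∀ x ∈ A, segment ℝ (f x) (g x) ⊆ B) {n : ℕ}
    {v : Chain n X} (hv : v ∈ Ch n A) (hz : Zc n v) : push g n v - push f n v ∈ Bd n B := by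
  cases n with
  | succ n => exact push_sub_push hf hg h hv hz
  | zero =>
    refine Ch_mem (push g 0 - push f 0) _ (fun σ hσ => ?_) hv
    rw [LinearMap.sub_apply, push_single (cont_of_range hg hσ), push_single (cont_of_range hf hσ),
      zero_eq_const ⟨g ∘ σ, _⟩, zero_eq_const ⟨f ∘ σ, _⟩]
    exact seg_Bd (h _ (hσ ⟨_, rfl⟩))

end Lin

/-- chains in `A` that bound in the whole space -/
def Rc (n : ℕ) (A : Set X) : Submodule ℤ (Chain n X) := Ch n A ⊓ Bd n univ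

lemma push_Rc {g : X → Y} {A : Set X} {B : Set Y} (hg : Continuous g) (h : MapsTo g A B)
    {n : ℕ} {w : Chain n X} (hw : w ∈ Rc n A) : push g n w ∈ Rc n B :=
  ⟨push_mem hg.continuousOn h hw.1, push_Bd hg.continuousOn (mapsTo_univ _ _) hw.2⟩

lemma bd_mem_Rc {n : ℕ} {A : Set X} {w : Chain (n + 1) X} (h : bd n X w ∈ Ch n A) :
    bd n X w ∈ Rc n A := ⟨h, bd_mem_Bd (mem_Ch_univ w)⟩

lemma Bd_le_Rc {n : ℕ} {A : Set X} : Bd n A ≤ Rc n A := by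
  rintro _ ⟨c, hc, rfl⟩
  exact bd_mem_Rc (bd_mem hc)

/-- an injective integer valued invariant of reduced homology classes of the punctured space -/
structure Inv (E : Type*) [TopologicalSpace E] [Zero E] (n : ℕ) where
  ω : Chain n E → ℤ
  add : ∀ v ∈ Rc n {0}ᶜ, ∀ w ∈ Rc n {0}ᶜ, ω (v + w) = ω v + ω w
  ker : ∀ v ∈ Rc n {0}ᶜ, ω v = 0 ↔ v ∈ Bd n {0}ᶜ

lemma inv_zero : Nonempty (Inv (Fin 1 → ℝ) 0) := by
  classical
  let ω : Chain 0 (Fin 1 → ℝ) →ₗ[ℤ] ℤ :=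
    linearCombination ℤ fun σ => if 0 < σ (vert 0 0) 0 then 1 else 0
  let au : Chain 0 (Fin 1 → ℝ) →ₗ[ℤ] ℤ := linearCombination ℤ fun _ => 1
  have ne : ∀ x : Fin 1 → ℝ, x ∈ ({0}ᶜ : Set _) ↔ x 0 ≠ 0 := fun x => by
    simp [funext_iff, Fin.forall_fin_one]
  refine ⟨⟨ω, fun v _ w _ => map_add _ _ _, fun v hv => ⟨fun h => ?_, ?_⟩⟩⟩
  · have h1 : au v = 0 := by
      obtain ⟨c, -, rfl⟩ := hv.2
      refine lin_ext (f := au ∘ₗ bd 0 _) (g := 0) (fun σ => ?_) c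
      simp [bd_one, au]
    have h2 := Ch_mem (LinearMap.id - ω.smulRight (single (ContinuousMap.const (Δ 0) 1) 1) -
      (au - ω).smulRight (single (ContinuousMap.const (Δ 0) (-1)) 1)) (Bd 0 {0}ᶜ)
      (fun σ hσ => ?_) hv.1
    · simpa [h, h1] using h2
    have h0 := (ne _).1 (hσ ⟨vert 0 0, rfl⟩)
    simp only [LinearMap.sub_apply, LinearMap.id_apply, LinearMap.smulRight_apply, ω, au,
      linearCombination_single, one_smul]
    rw [zero_eq_const σ]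
    simp only [ContinuousMap.const_apply]
    split_ifs with h3
    · simp only [one_smul, sub_self, zero_smul, sub_zero]
      refine seg_Bd ?_
      rintro _ ⟨a, b, ha, hb, hab, rfl⟩
      rw [ne]
      simpa using (cvx_lt ha hb hab one_pos h3).ne'
    · simp only [zero_smul, sub_zero, one_smul]
      refine seg_Bd ?_
      rintro _ ⟨a, b, ha, hb, hab, rfl⟩
      rw [ne]
      have := cvx_lt ha hb hab one_pos (neg_pos.2 (lt_of_le_of_ne (not_lt.1 h3) h0))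
      simp only [Pi.add_apply, Pi.smul_apply, Pi.neg_apply, Pi.one_apply, smul_eq_mul]
      linarith
  · rintro ⟨c, hc, rfl⟩
    refine Ch_ext (ω ∘ₗ bd 0 _) 0 (fun σ hσ => ?_) hc
    have h1 : ∀ x y, 0 < σ x 0 → 0 < σ y 0 := fun x y hx => by
      by_contra! hy
      obtain ⟨z, hz⟩ := intermediate_value_univ y x
        ((continuous_apply 0).comp σ.continuous) (⟨hy, hx.le⟩ : (0 : ℝ) ∈ Icc _ _)
      exact (ne _).1 (hσ ⟨z, rfl⟩) hz
    have h2 : 0 < σ (vert 1 1) 0 ↔ 0 < σ (vert 1 0) 0 := ⟨h1 _ _, h1 _ _⟩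
    simp [bd_one, ω, h2]

lemma inv_exists (n : ℕ) : Nonempty (Inv (Fin (n + 1) → ℝ) n) := by
  cases n with
  | zero => exact inv_zero
  | succ j =>
    obtain ⟨μ, ⟨W⟩, -⟩ := exists_mu j
    have h : ∀ v ∈ Rc (j + 1) ({0}ᶜ : Set (Fin (j + 2) → ℝ)), v ∈ Cy j {0}ᶜ := fun v hv =>
      ⟨hv.1, bd_of_mem_Bd hv.2⟩
    exact ⟨⟨W.ω, fun v hv w hw => W.add v (h v hv) w (h w hw), fun v hv => W.ker v (h v hv)⟩⟩

namespace Inv

variable {E : Type*} [TopologicalSpace E] [Zero E] {n : ℕ} (W : Inv E n)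

/-- the invariant as a homomorphism -/
def hom : Rc n ({0}ᶜ : Set E) →+ ℤ :=
  AddMonoidHom.mk' (fun v => W.ω v) fun v w => W.add v v.2 w w.2

lemma zero : W.ω 0 = 0 := W.hom.map_zero

lemma sub {v w : Chain n E} (hv : v ∈ Rc n {0}ᶜ) (hw : w ∈ Rc n {0}ᶜ) :
    W.ω (v - w) = W.ω v - W.ω w := W.hom.map_sub ⟨v, hv⟩ ⟨w, hw⟩

lemma smul (a : ℤ) {v : Chain n E} (hv : v ∈ Rc n {0}ᶜ) : W.ω (a • v) = a * W.ω v :=
  map_zsmul W.hom a ⟨v, hv⟩

lemma sum {ι : Type*} (s : Finset ι) {v : ι → Chain n E} (hv : ∀ i, v i ∈ Rc n {0}ᶜ) :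
    W.ω (∑ i ∈ s, v i) = ∑ i ∈ s, W.ω (v i) := by
  have h : (⟨∑ i ∈ s, v i, Submodule.sum_mem _ fun i _ => hv i⟩ : Rc n ({0}ᶜ : Set E)) =
      ∑ i ∈ s, ⟨v i, hv i⟩ := Subtype.ext (by simp)
  exact (congrArg W.hom h).trans (map_sum W.hom (fun i => ⟨v i, hv i⟩) s)

lemma congr {v w : Chain n E} (hw : w ∈ Rc n {0}ᶜ) (h : v - w ∈ Bd n {0}ᶜ) :
    W.ω v = W.ω w := by
  have h1 := W.add _ (Bd_le_Rc h) _ hw
  rwa [(W.ker _ (Bd_le_Rc h)).2 h, zero_add, sub_add_cancel] at h1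

lemma cross {φ : E → E} (hφ : Continuous φ) (h0 : MapsTo φ {0}ᶜ {0}ᶜ) {v w : Chain n E}
    (hv : v ∈ Rc n {0}ᶜ) (hw : w ∈ Rc n {0}ᶜ) :
    W.ω w * W.ω (push φ n v) = W.ω v * W.ω (push φ n w) := by
  have a1 := Submodule.smul_mem _ (W.ω w) hv
  have a2 := Submodule.smul_mem _ (W.ω v) hw
  have h1 := push_Bd hφ.continuousOn h0 ((W.ker _ (Submodule.sub_mem _ a1 a2)).1 (by
    rw [W.sub a1 a2, W.smul _ hv, W.smul _ hw, mul_comm, sub_self]))
  rw [map_sub, map_smul, map_smul] at h1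
  rw [← W.smul _ (push_Rc hφ h0 hv), ← W.smul _ (push_Rc hφ h0 hw)]
  exact W.congr (Submodule.smul_mem _ _ (push_Rc hφ h0 hw)) h1

lemma abs_push {φ ψ : E → E} (hφ : Continuous φ) (h0 : MapsTo φ {0}ᶜ {0}ᶜ) (hψ : Continuous ψ)
    (h1 : MapsTo ψ {0}ᶜ {0}ᶜ) (h : φ ∘ ψ = id) {v : Chain n E} (hv : v ∈ Rc n {0}ᶜ) :
    |W.ω (push φ n v)| = |W.ω v| := by
  obtain ⟨g, hg⟩ := Int.subgroup_cyclic W.hom.range
  have h2 : ∀ u ∈ Rc n {0}ᶜ, g ∣ W.ω u := fun u hu => by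
    have : W.hom ⟨u, hu⟩ ∈ AddSubgroup.closure {g} := hg ▸ ⟨_, rfl⟩
    obtain ⟨a, ha⟩ := AddSubgroup.mem_closure_singleton.1 this
    exact ⟨a, by rw [mul_comm]; exact ha.symm⟩
  obtain ⟨⟨u, hu⟩, h3⟩ : g ∈ W.hom.range := hg ▸ AddSubgroup.mem_closure_singleton_self g
  have h3 : W.ω u = g := h3
  rcases eq_or_ne g 0 with rfl | g0
  · rw [zero_dvd_iff.1 (h2 _ hv), zero_dvd_iff.1 (h2 _ (push_Rc hφ h0 hv))]
  obtain ⟨a, ha⟩ := h2 _ (push_Rc hφ h0 hu)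
  obtain ⟨b, hb⟩ := h2 _ (push_Rc hψ h1 hu)
  have h4 := W.cross hφ h0 (push_Rc hψ h1 hu) hu
  rw [push_push' hψ hφ, h, push_id, h3, ha, hb] at h4
  have h5 : b * a = 1 := mul_left_cancel₀ (mul_ne_zero g0 g0) (by linarith)
  have h6 := W.cross hφ h0 hv hu
  rw [h3, ha] at h6
  have h7 : W.ω (push φ n v) = W.ω v * a := mul_left_cancel₀ g0 (by linarith)
  rw [h7, abs_mul, Int.isUnit_iff_abs_eq.1 (IsUnit.of_mul_eq_one_right b h5), mul_one]

open Classical in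
/-- the local degree of `g` on a relative cycle -/
def deg (U V : Set X) (g : X → E) (w : Chain (n + 1) X) : ℤ :=
  if h : ∃ p : Chain (n + 1) X × Chain (n + 1) X, p.1 ∈ Ch (n + 1) U ∧ p.2 ∈ Ch (n + 1) V ∧
      w - (p.1 + p.2) ∈ Bd (n + 1) (U ∪ V) then
    W.ω (push g n (bd n X h.choose.1)) else 0

end Inv

lemma bd_decomp' {n : ℕ} {U V A : Set X} {w w1 w2 : Chain (n + 1) X} (hw : bd n X w ∈ Ch n V)
    (h1 : w1 ∈ Ch (n + 1) U) (h2 : w2 ∈ Ch (n + 1) V) (h : w - (w1 + w2) ∈ Bd (n + 1) A) :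
    bd n X w1 ∈ Rc n (U ∩ V) := by
  refine bd_mem_Rc (Ch_inter (bd_mem h1) ?_)
  have := bd_of_mem_Bd h
  rw [map_sub, map_add, ← sub_sub, sub_right_comm, sub_eq_zero] at this
  rw [← this]
  exact Submodule.sub_mem _ hw (bd_mem h2)

lemma exists_rel {n : ℕ} {A U V : Set X} (hU : IsOpen U) (hV : IsOpen V) (hA : A ⊆ U ∪ V)
    {w : Chain (n + 1) X} (hw : w ∈ Ch (n + 1) A) (hb : bd n X w ∈ Ch n V) :
    ∃ w1 ∈ Ch (n + 1) (A ∩ U), ∃ w2 ∈ Ch (n + 1) (A ∩ V), w - (w1 + w2) ∈ Bd (n + 1) A := by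
  obtain ⟨w1, h1, w2, h2, h3⟩ := exists_decomp hU hV hA hw (Ch_inter (bd_mem hw) hb)
  obtain ⟨b, hb, c, hc, h4⟩ := Submodule.mem_sup.1 h3
  refine ⟨w1, h1, w2 + c, Submodule.add_mem _ h2 hc, ?_⟩
  rwa [← add_assoc, ← sub_sub, ← h4, add_sub_cancel_right]

/-- relative cycles -/
def Rel (n : ℕ) (A B : Set X) : Submodule ℤ (Chain (n + 1) X) :=
  Ch (n + 1) A ⊓ (Ch n B).comap (bd n X)

section MV

variable {E : Type*} [TopologicalSpace E] [Zero E] {n : ℕ} (W : Inv E n)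
  {U V : Set X} {g : X → E} (hU : IsOpen U) (hV : IsOpen V) (hg : Continuous g)
  (hg0 : MapsTo g (U ∩ V) {0}ᶜ)
include hU hV hg hg0

lemma Inv.deg_eq {w w1 w2 : Chain (n + 1) X} (hw : bd n X w ∈ Ch n V) (h1 : w1 ∈ Ch (n + 1) U)
    (h2 : w2 ∈ Ch (n + 1) V) (h : w - (w1 + w2) ∈ Bd (n + 1) (U ∪ V)) :
    W.deg U V g w = W.ω (push g n (bd n X w1)) := by
  have hex : ∃ p : Chain (n + 1) X × Chain (n + 1) X, p.1 ∈ Ch (n + 1) U ∧ p.2 ∈ Ch (n + 1) V ∧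
      w - (p.1 + p.2) ∈ Bd (n + 1) (U ∪ V) := ⟨(w1, w2), h1, h2, h⟩
  rw [Inv.deg, dif_pos hex]
  obtain ⟨a1, a2, a3⟩ := hex.choose_spec
  generalize hex.choose = p at a1 a2 a3
  refine W.congr (push_Rc hg hg0 (bd_decomp' hw h1 h2 h)) ?_
  rw [← map_sub, ← map_sub]
  refine push_Bd hg.continuousOn hg0
    (mv_unique' hU hV (Submodule.sub_mem _ a1 h1) (Submodule.sub_mem _ a2 h2) ?_)
  exact (congrArg (· ∈ Bd (n + 1) (U ∪ V)) (by abel)).mp (Submodule.sub_mem _ h a3)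

lemma Inv.deg_add {v w : Chain (n + 1) X} (hv : v ∈ Rel n (U ∪ V) V) (hw : w ∈ Rel n (U ∪ V) V) :
    W.deg U V g (v + w) = W.deg U V g v + W.deg U V g w := by
  obtain ⟨v1, a1, v2, a2, a3⟩ := exists_rel hU hV Subset.rfl hv.1 hv.2
  obtain ⟨w1, b1, w2, b2, b3⟩ := exists_rel hU hV Subset.rfl hw.1 hw.2
  replace a1 := Ch_mono inter_subset_right a1
  replace a2 := Ch_mono inter_subset_right a2
  replace b1 := Ch_mono inter_subset_right b1
  replace b2 := Ch_mono inter_subset_right b2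
  rw [W.deg_eq hU hV hg hg0 hv.2 a1 a2 a3, W.deg_eq hU hV hg hg0 hw.2 b1 b2 b3,
    W.deg_eq hU hV hg hg0 (Submodule.add_mem _ hv hw).2 (Submodule.add_mem _ a1 b1)
      (Submodule.add_mem _ a2 b2)
      ((congrArg (· ∈ Bd (n + 1) (U ∪ V)) (by abel)).mp (Submodule.add_mem _ a3 b3)),
    map_add, map_add, W.add _ (push_Rc hg hg0 (bd_decomp' hv.2 a1 a2 a3)) _
      (push_Rc hg hg0 (bd_decomp' hw.2 b1 b2 b3))]

end MV

end Pool.Agent.Lib.MP_d476f3_gt.St
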