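import Pool.Agent.Lib.MP_d476f3_gt.St.Dg

open Set Finsupp Filter Topology

noncomputable section

namespace Pool.Agent.Lib.MP_d476f3_gt.St

variable {m k n : ℕ}

/-- affine coordinates on the simplex -/
def co (k : ℕ) (x : Δ k) : Fin k → ℝ := fun j => x.1 j.succ

lemma co_cont : Continuous (co k) :=
  continuous_pi fun j => (continuous_apply j.succ).comp continuous_subtype_val

lemma zero_co (x : Δ k) : x.1 0 = 1 - ∑ j, co k x j := by
  have := x.2.2
  rw [Fin.sum_univ_succ] at this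
  exact eq_sub_of_add_eq this

lemma co_inj : Function.Injective (co k) := fun x y h => Subtype.ext (funext fun i => by
  refine Fin.cases ?_ (fun j => congrFun h j) i
  rw [zero_co, zero_co, h])

/-- the fundamental chain of the simplex -/
def fund (k : ℕ) : Chain k (Δ k) := single (ContinuousMap.id _) 1

lemma bd_fund : bd n _ (fund (n + 1)) ∈ Ch n {p : Δ (n + 1) | ∃ i, p.1 i = 0} := by
  rw [fund, bd_single]
  refine Submodule.sum_mem _ fun i _ => Submodule.smul_mem _ _ (single_mem_Ch ?_ _)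
  rintro _ ⟨x, rfl⟩
  refine ⟨i, ?_⟩
  change FunOnFinite.linearMap ℝ ℝ i.succAbove x.1 i = 0
  rw [FunOnFinite.linearMap_apply_apply]
  simp

lemma push_fund {X : Type*} [TopologicalSpace X] (σ : C(Δ k, X)) :
    push σ k (fund k) = single σ 1 := by
  rw [fund, push_single (by exact σ.continuous)]
  rfl

/-- `x` is an interior point where `g` is approximated by an invertible linear map -/
def Reg (g : Δ k → (Fin k → ℝ)) (x : Δ k) : Prop :=
  (∀ i, 0 < x.1 i) ∧ ∃ L : (Fin k → ℝ) ≃L[ℝ] (Fin k → ℝ), ∀ᶠ p in 𝓝 x, p ≠ x →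
    ‖g p - g x - L (co k p - co k x)‖ < ‖L (co k p - co k x)‖

lemma move_centre (W : Inv (Fin (n + 1) → ℝ) n) {x y : Δ (n + 1)} (hx : ∀ i, 0 < x.1 i)
    (hy : ∀ i, 0 < y.1 i) : W.ω (push (fun p => co _ p - co _ x) n (bd n _ (fund (n + 1)))) =
      W.ω (push (fun p => co _ p - co _ y) n (bd n _ (fund (n + 1)))) := by
  have h : ∀ p ∈ {p : Δ (n + 1) | ∃ i, p.1 i = 0},
      segment ℝ (co _ p - co _ y) (co _ p - co _ x) ⊆ {0}ᶜ := by
    rintro p ⟨i, hi⟩ _ ⟨a, b, ha, hb, hab, rfl⟩ h0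
    have h1 : p = ⟨a • y.1 + b • x.1, convex_stdSimplex ℝ _ y.2 x.2 ha hb hab⟩ := by
      refine co_inj (funext fun j => ?_)
      have := congrFun (mem_singleton_iff.1 h0) j
      obtain rfl : b = 1 - a := by linarith
      simp only [co, Pi.add_apply, Pi.smul_apply, Pi.sub_apply, smul_eq_mul, Pi.zero_apply] at this ⊢
      linarith
    rw [h1] at hi
    exact (cvx_lt ha hb hab (hy i) (hx i)).ne' hi
  refine W.congr (push_Rc (co_cont.sub continuous_const)
    (fun p hp => h p hp (left_mem_segment _ _ _)) (bd_mem_Rc bd_fund)) ?_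
  exact push_sub_push' (co_cont.sub continuous_const).continuousOn
    (co_cont.sub continuous_const).continuousOn h bd_fund (Zc_of_Bd (bd_mem_Bd (mem_Ch_univ _)))

theorem Inv.simplex (W : Inv (Fin (n + 1) → ℝ) n) : ∃ c : ℕ,
    ∀ (σ : C(Δ (n + 1), Fin m → ℝ)), (∀ x, σ x ∈ Wle m (n + 1)) →
    (∀ x (f : Face m (n + 1)), f.π (σ x) = 0 → Reg (f.π ∘ σ) x) →
    single σ 1 ∈ Rel n (Wle m (n + 1)) (Wlt m (n + 1)) ∧ ∀ s : Finset (Δ (n + 1)),
      (∀ x, σ x ∉ Wlt m (n + 1) → x ∈ s) →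
      ∀ f : Face m (n + 1), |W.D f (single σ 1)| ≤ c * s.card := by
  classical
  let b : Δ (n + 1) := stdSimplex.barycenter
  have hb : ∀ i, 0 < b.1 i := fun i => by
    change 0 < ((Fintype.card (Fin (n + 2)) : ℝ))⁻¹
    positivity
  refine ⟨(W.ω (push (fun p => co _ p - co _ b) n (bd n _ (fund (n + 1))))).natAbs,
    fun σ hW hreg => ?_⟩
  have hh := σ.continuous
  have h1 : ∀ x, σ x ∉ Wlt m (n + 1) → ∃ f : Face m (n + 1), σ x ∈ f.U ∧ f.π (σ x) = 0 :=
    fun x hx => by
      obtain ⟨f, hf⟩ := exists_face (hW x) hx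
      exact ⟨f, hf, by_contra fun e => hx (f.Wlt_of_ne hf e)⟩
  have hbd : bd n _ (fund (n + 1)) ∈ Ch n (σ ⁻¹' Wlt m (n + 1)) := Ch_mono (by
    rintro p ⟨i, hi⟩
    by_contra e
    obtain ⟨f, -, hf⟩ := h1 p e
    exact ((hreg p f hf).1 i).ne' hi) bd_fund
  have hrel : bd n _ (single σ 1) ∈ Ch n (Wlt m (n + 1)) := by
    rw [← push_fund, bd_push hh.continuousOn (mem_Ch_univ _)]
    exact push_mem hh.continuousOn (mapsTo_preimage _ _) hbd
  refine ⟨⟨single_mem_Ch (range_subset_iff.2 hW) _, hrel⟩, fun s hs f => ?_⟩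
  let I := {x : s // σ x ∉ Wlt m (n + 1)}
  choose F hF h0 using fun x : I => h1 x.1 x.2
  choose L hL using fun x : I => (hreg _ _ (h0 x)).2
  choose N hN hNo hNx using fun x : I => mem_nhds_iff.1 (hL x)
  obtain ⟨U, hU, hd⟩ := s.finite_toSet.t2_separation
  let G : I → Set (Δ (n + 1)) := fun x => U x.1 ∩ N x ∩ σ ⁻¹' (F x).U
  have hG : ∀ x, IsOpen (G x) := fun x =>
    ((hU _).2.inter (hNo x)).inter ((isOpen_piece _ _).preimage hh)
  have hGd : Pairwise (Function.onFun Disjoint G) := fun x y e =>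
    Disjoint.mono (inter_subset_left.trans inter_subset_left)
      (inter_subset_left.trans inter_subset_left)
      (hd x.1.2 y.1.2 fun e' => e (Subtype.ext (Subtype.ext e')))
  have hGx : ∀ x : I, (x.1 : Δ (n + 1)) ∈ G x := fun x => ⟨⟨(hU _).1, hNx x⟩, hF x⟩
  obtain ⟨u, w2, a1, a2, a3, a4⟩ := exists_family_rel hG hGd
    (isOpen_Wlt (k := n + 1).preimage hh) (A := univ) (fun x _ => by
      by_cases e : σ x ∈ Wlt m (n + 1)
      · exact Or.inr e
      · exact Or.inl (mem_iUnion.2 ⟨⟨⟨x, hs x e⟩, e⟩, hGx _⟩)) (mem_Ch_univ (fund (n + 1))) hbd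
  have h4 := push_Bd hh.continuousOn (B := Wle m (n + 1)) (fun x _ => hW x) a3
  rw [map_sub, map_add, map_sum, push_fund] at h4
  rw [W.D_eq F hrel (fun i => push_mem hh.continuousOn (fun y hy => hy.1.2) (a1 i))
    (push_mem hh.continuousOn (fun y hy => hy.2) a2) h4 (fun i => by
      rw [bd_push hh.continuousOn (mem_Ch_univ _)]
      exact push_mem hh.continuousOn (fun y hy => hy.2) (a4 i))]
  refine (Finset.abs_sum_le_sum_abs _ _).trans ((Finset.sum_le_card_nsmul _ _
    |W.ω (push (fun p => co _ p - co _ b) n (bd n _ (fund (n + 1))))| fun x hx => ?_).trans ?_)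
  · obtain rfl := (Finset.mem_filter.1 hx).2
    have hc : Continuous fun p => co (n + 1) p - co _ x.1 := co_cont.sub continuous_const
    have hc0 : MapsTo (fun p => co (n + 1) p - co _ x.1) {(x.1 : Δ (n + 1))}ᶜ {0}ᶜ :=
      fun p hp e => hp (co_inj (sub_eq_zero.1 e))
    have hL0 : MapsTo (L x) {0}ᶜ {0}ᶜ := fun p hp => by simpa using hp
    have hL1 : MapsTo (L x).symm {0}ᶜ {0}ᶜ := fun p hp => by simpa using hp
    have hx' : G x ∩ σ ⁻¹' Wlt m (n + 1) ⊆ {(x.1 : Δ (n + 1))}ᶜ := by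
      rintro _ h' rfl
      exact x.2 h'.2
    have b1 : bd n _ (fund (n + 1)) - bd n _ (u x) ∈ Bd n {(x.1 : Δ (n + 1))}ᶜ := by
      have e := bd_of_mem_Bd a3
      rw [← Finset.add_sum_erase _ _ (Finset.mem_univ x), add_assoc (u x), ← sub_sub, map_sub,
        map_sub, sub_eq_zero] at e
      rw [e]
      refine bd_mem_Bd (Submodule.add_mem _ (Submodule.sum_mem _ fun y hy =>
        Ch_mono ?_ (a1 y)) (Ch_mono ?_ a2))
      · rintro _ h' rfl
        exact disjoint_left.1 (hGd (Finset.ne_of_mem_erase hy)) h'.1 (hGx x)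
      · rintro _ h' rfl
        exact x.2 h'.2
    have b2 := push_Rc hc hc0 (bd_mem_Rc (Ch_mono hx' (a4 x)))
    have b3 := push_Bd hc.continuousOn hc0 b1
    rw [map_sub] at b3
    rw [← move_centre W (hreg _ _ (h0 x)).1 hb, W.congr b2 b3,
      ← W.abs_push (L x).continuous hL0 (L x).symm.continuous hL1 (L x).self_comp_symm b2,
      bd_push hh.continuousOn (mem_Ch_univ _), push_push' hh (F x).continuous_π,
      push_push' hc (L x).continuous]
    refine le_of_eq (congrArg _ (W.congr (push_Rc ((L x).continuous.comp hc) (hL0.comp hc0)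
      (bd_mem_Rc (Ch_mono hx' (a4 x)))) (push_sub_push' ((L x).continuous.comp hc).continuousOn
        ((F x).continuous_π.comp hh).continuousOn ?_ (a4 x)
        (Zc_of_Bd (bd_mem_Bd (mem_Ch_univ _))))))
    rintro p hp _ ⟨a, c, ha, hc', hac, rfl⟩ e
    have b4 := hN x hp.1.1.2 (hx' hp)
    simp only [Function.comp_apply, h0 x, sub_zero] at b4 e
    generalize (L x) (co (n + 1) p - co _ x.1) = v at b4 e
    generalize (F x).π (σ p) = w at b4 e
    obtain rfl : a = 1 - c := by linarith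
    have b5 : v = -(c • (w - v)) := by
      rw [eq_neg_iff_add_eq_zero, ← mem_singleton_iff.1 e]
      module
    have b6 := congrArg norm b5
    rw [norm_neg, norm_smul, Real.norm_of_nonneg hc'] at b6
    nlinarith [norm_nonneg (w - v)]
  · rw [nsmul_eq_mul, mul_comm, Int.natCast_natAbs]
    refine mul_le_mul_of_nonneg_left (Int.ofNat_le.2 ((Finset.card_filter_le _ _).trans ?_))
      (abs_nonneg _)
    exact (Fintype.card_subtype_le _).trans (Fintype.card_coe _).le

end Pool.Agent.Lib.MP_d476f3_gt.St
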