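import Pool.Agent.Lib.MP_d476f3_gt.St.Master
import Pool.Agent.Lib.MP_d476f3_gt.St.Cov
import Pool.Agent.Lib.MP_d476f3_gt.St.Defs
import Pool.Agent.Lib.MP_d476f3_gt.Bridge

open Set MeasureTheory Filter Topology
open scoped Manifold ContDiff ENNReal NNReal

noncomputable section

namespace Pool.Agent.Lib.MP_d476f3_gt.St

open Abs

lemma cancel_aux {c T ck K : ℝ≥0} {N x : ℝ≥0∞} (c1 : 1 ≤ c) (h1 : K ≤ c * ck)
    (h2 : ((c * T : ℝ≥0) : ℝ≥0∞) ≤ N) {i : ℝ≥0∞} (h3 : N * i ≤ K * x) : T * i ≤ ck * x := by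
  have h4 : (c : ℝ≥0∞) * (T * i) ≤ c * (ck * x) := by
    rw [← mul_assoc, ← mul_assoc, ← ENNReal.coe_mul, ← ENNReal.coe_mul]
    exact (mul_le_mul_left h2 i).trans (h3.trans (mul_le_mul_left (ENNReal.coe_le_coe.2 h1) x))
  exact (ENNReal.mul_le_mul_iff_right (by simpa using (zero_lt_one.trans_le c1).ne')
    ENNReal.coe_ne_top).1 h4

lemma range_le_area {X M : Type*} [TopologicalSpace X] [CompactSpace X] [EMetricSpace M]
    [MeasurableSpace M] [BorelSpace M] (μ : Measure M) (σ : C(X, M)) :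
    μ (range σ) ≤ ∫⁻ p, ({x | σ x = p}.encard : ℝ≥0∞) ∂μ := by
  rw [← lintegral_indicator_one (isCompact_range σ.continuous).isClosed.measurableSet]
  refine lintegral_mono fun p => indicator_apply_le' (fun ⟨x, hx⟩ => ?_) fun _ => zero_le
  rw [Pi.one_apply, ← ENat.toENNReal_one]
  exact ENat.toENNReal_le.2 (one_le_encard_iff_nonempty.2 ⟨x, hx⟩)

theorem stable_master (d : ℕ) (hd : 0 < d) (M : Type*) [TopologicalSpace M]
    [ChartedSpace (EuclideanSpace ℝ (Fin d)) M] [IsManifold (𝓡 d) ∞ M] [T2Space M]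
    [CompactSpace M] [Nonempty M] (n : ℕ) (V : Fin (n + 1) → Set M) (hV : ∀ j, IsOpen (V j))
    (hcov : ⋃ j, V j = univ)
    (hN : ∀ j, (⟨Subtype.val, continuous_subtype_val⟩ : C(V j, M)).Nullhomotopic) :
    ∃ C : ℝ≥0, ∀ T : ℝ≥0, 1 ≤ T → ∃ g : Stmt.RMetric (EuclideanSpace ℝ (Fin d)) M,
      (∀ j < d, (T : ℝ≥0∞) ≤ absys g (j + 1) ∧ (T : ℝ≥0∞) ≤ hsys g j ∧ (T : ℝ≥0∞) ≤ stsys g j) ∧
      Stmt.vol g d univ ≤ (C * T ^ n : ℝ≥0) := by
  obtain ⟨m, e, R, he, hinj, hR, hRe⟩ := exists_retract d M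
  obtain ⟨C, Z, hZ, H⟩ := families d hd M n V hV hcov hN he hinj
    (Function.LeftInverse.injective hRe)
  choose Ct hCt using top_bound he.continuous hR hRe
  obtain ⟨b, hb⟩ : ∃ b : ℕ, ∀ p, ‖e p‖ + 1 ≤ b := by
    obtain ⟨B, hB⟩ := isCompact_univ.exists_bound_of_continuousOn he.continuous.continuousOn
    exact ⟨⌈B + 1⌉₊, fun p => (add_le_add (hB p trivial) le_rfl).trans (Nat.le_ceil _)⟩
  obtain ⟨ck, hck⟩ : ∃ ck : ℕ → ℝ≥0, ∀ k, ck k = Measure.addHaarScalarFactor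
    (volume : Measure (EuclideanSpace ℝ (Fin k))) μH[(k : ℕ)] := ⟨_, fun _ => rfl⟩
  have hck0 : ∀ k, 0 < ck k := fun k => pos_iff_ne_zero.2
    (hck k ▸ Measure.addHaarScalarFactor_volume_hausdorffMeasure_ne_zero _)
  obtain ⟨K, hK⟩ : ∃ K : ℕ → ℕ, ∀ j, K j =
    (Ct j + 1) * (Fintype.card (Dir m (j + 1)) * (2 * b + 3) ^ (j + 1) * n) := ⟨_, fun _ => rfl⟩
  obtain ⟨c, hc1, hc⟩ : ∃ c : ℝ≥0, 1 ≤ c ∧ ∀ j < d, (K j : ℝ≥0) ≤ c * ck (j + 1) :=
    ⟨1 + ∑ j ∈ Finset.range d, K j / ck (j + 1), le_self_add, fun j hj => by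
      rw [← div_le_iff₀ (hck0 _)]
      exact (Finset.single_le_sum (f := fun j => (K j : ℝ≥0) / ck (j + 1)) (fun _ _ => zero_le)
        (Finset.mem_range.2 hj)).trans le_add_self⟩
  refine ⟨C * (2 * c) ^ n, fun T hT => ?_⟩
  obtain ⟨N, N1, N2⟩ : ∃ N : ℕ, c * T ≤ N ∧ N ≤ 2 * c * T := ⟨⌈c * T⌉₊, Nat.le_ceil _,
    (Nat.ceil_lt_add_one zero_le).le.trans (by
      rw [mul_assoc, two_mul]
      gcongr
      exact one_le_mul hc1 hT)⟩
  obtain ⟨g, h, Tr, a1, a2, a3, a4, a5, a6⟩ := H N (by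
    exact_mod_cast (zero_lt_one.trans_le (one_le_mul hc1 hT)).trans_le N1)
  have N3 : ((c * T : ℝ≥0) : ℝ≥0∞) ≤ (Fintype.card (Fin N) : ℕ) := by
    rw [Fintype.card_fin]
    exact_mod_cast N1
  have a7 : ∀ j p, ‖h j (1, p)‖ ≤ b := fun j p => by
    obtain ⟨q, hq⟩ := (a1 j).near 1 (right_mem_Icc.2 zero_le_one) p
    linarith [hb q, norm_le_norm_add_norm_sub' (h j (1, p)) (e q)]
  let _ : EMetricSpace M := rdist g
  let _ : MeasurableSpace M := borel M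
  have _ : BorelSpace M := ⟨rfl⟩
  have a8 : ∀ j, LipschitzWith 1 fun p => h j (1, p) := fun j p q =>
    edist_pi_le_iff.2 fun t => (a2 j t p q).trans_eq (by rw [ENNReal.coe_one, one_mul])
  have a9 : ∀ j < d, ∀ A : Set M, (∀ i θ, ‖θ‖ ≤ 1 → ∃ p ∈ A, h i (1, p) - θ ∉ Wlt m (j + 1)) →
      (T : ℝ≥0∞) ≤ Measure.euclideanHausdorffMeasure (j + 1) A := fun j k1 A hA => by
    have h2 := set_bound j.succ_pos a8 a7 a3 a4 hZ a5 hA
    have h3 := cancel_aux hc1 (hc j k1) N3 (i := 1) (x := μH[(j + 1 : ℕ)] A) (by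
      rw [mul_one, ENNReal.coe_natCast, hK]
      exact h2.trans (mul_le_mul_left (Nat.cast_le.2 (Nat.le_mul_of_pos_left _ (Ct j).succ_pos)) _))
    rwa [Measure.euclideanHausdorffMeasure_def, ← hck, Measure.smul_apply, ENNReal.smul_def,
      smul_eq_mul, ← mul_one (T : ℝ≥0∞)]
  refine ⟨g, fun j hj => ⟨le_iInf₂ fun A hA => a9 j hj A fun i θ _ => ?_, ?_, ?_⟩, a6.trans ?_⟩
  · by_contra! h1
    exact hA (inessential_of_family hR hRe (a1 i).cont (a1 i).zero (a1 i).near θ h1)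
  · refine le_iInf₂ fun X _ => le_iInf₂ fun p hp => le_iInf₂ fun q z => le_iInf₂ fun b1 b2 => ?_
    refine (a9 j hj (⋃ σ ∈ z.support, range (p.comp σ)) fun i θ hθ => ?_).trans
      ((measure_biUnion_finset_le _ _).trans (Finset.sum_le_sum fun σ hσ =>
        (range_le_area _ (p.comp σ)).trans (le_mul_of_one_le_left' ?_)))
    · by_contra! h1
      obtain ⟨b, hb⟩ := b1
      obtain ⟨_, ⟨c, -, rfl⟩, _, ⟨u, rfl⟩, h2⟩ := Submodule.mem_sup.1 (cover_null (q := q) (z := z)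
        he.continuous hR hRe (a1 i).cont (a1 i).zero (a1 i).near hθ hp
        ⟨b, hb.symm.trans (stmt_bd z)⟩ fun σ hσ => range_subset_iff.2 fun x =>
          h1 _ (mem_iUnion₂.2 ⟨σ, hσ, x, rfl⟩))
      exact b2 ⟨c, u, by rw [stmt_bd]; exact h2.symm⟩
    · exact_mod_cast Int.natAbs_pos.2 (Finsupp.mem_support_iff.1 hσ)
  · refine le_iInf₂ fun a b1 => le_iInf₂ fun b2 i => le_iInf₂ fun b3 z => le_iInf₂ fun b4 b5 => ?_
    obtain ⟨u, hu⟩ := b4
    have h2 := mass_bound (hCt j) (fun i => (a1 i).cont) (fun i => (a1 i).zero)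
      (fun i => (a1 i).near) a8 a7 a3 a4 hZ a5 (z := z) (z0 := a) (i := i)
      ((stmt_bd a).symm.trans b1) ⟨u, mem_Ch_univ u, (stmt_bd u).symm.trans hu⟩
      (fun N hN ⟨u, _, hu⟩ => b2 N hN ⟨u, (stmt_bd u).trans hu⟩) b5
    rw [← hK, ← ENNReal.coe_natCast (K j)] at h2
    have h3 := cancel_aux hc1 (hc j hj) N3 h2
    rw [ENNReal.le_div_iff_mul_le (Or.inl (by simpa using b3)) (Or.inl (by simp))]
    refine h3.trans_eq ?_
    rw [Finset.mul_sum]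
    refine Finset.sum_congr rfl fun σ _ => ?_
    rw [mul_left_comm]
    congr 1
    change _ = ∫⁻ p, _ ∂(Measure.euclideanHausdorffMeasure (j + 1))
    rw [Measure.euclideanHausdorffMeasure_def, ← hck, lintegral_smul_measure, ENNReal.smul_def,
      smul_eq_mul]
    rfl
  · rw [ENNReal.coe_le_coe, mul_assoc, ← mul_pow]
    gcongr

end Pool.Agent.Lib.MP_d476f3_gt.St
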