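import Pool.Agent.Lib.MP_d476f3_gt.St.Cnt

open Set MeasureTheory Filter Topology
open scoped ENNReal NNReal

noncomputable section

namespace Pool.Agent.Lib.MP_d476f3_gt.St

/-- the conclusion of `top_bound` -/
def TB {M : Type*} [TopologicalSpace M] {m : ℕ} (e : M → (Fin m → ℝ)) (n C : ℕ) : Prop :=
  ∀ h : ℝ × M → (Fin m → ℝ), Continuous h → (∀ p, h (0, p) = e p) →
      (∀ u ∈ Icc (0 : ℝ) 1, ∀ p, ∃ q, ‖h (u, p) - e q‖ ≤ 1) → ∀ θ : Fin m → ℝ, ‖θ‖ ≤ 1 →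
      ∀ (z z0 : Chain (n + 1) M) (i : ℤ), bd n M z0 = 0 → z - i • z0 ∈ Bd (n + 1) univ →
      (∀ N : ℤ, N ≠ 0 → N • z0 ∉ Bd (n + 1) univ) →
      (∀ σ ∈ z.support, ∀ x, h (1, σ x) - θ ∈ Wle m (n + 1)) →
      (∀ σ ∈ z.support, ∀ x (f : Face m (n + 1)), f.π (h (1, σ x) - θ) = 0 →
        Reg (fun p => f.π (h (1, σ p) - θ)) x) →
      ∀ s : C(Δ (n + 1), M) → Finset (Δ (n + 1)),
      (∀ σ ∈ z.support, ∀ x, h (1, σ x) - θ ∉ Wlt m (n + 1) → x ∈ s σ) →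
      i.natAbs ≤ C * ∑ σ ∈ z.support, (z σ).natAbs * (s σ).card

lemma generic_fin {m k : ℕ} (hk : 0 < k) {Z : Set (Fin m → ℝ)} (hZ : Z.Finite) :
    ∀ᵐ θ ∂cube (Fin m), ∀ v ∈ Z, v - θ ∈ Wlt m k := by
  have : Nonempty (Fin k) := ⟨⟨0, hk⟩⟩
  filter_upwards [eventually_all.2 fun T : Dir m k =>
    cube_avoid T.emb ((hZ.image fun v j => v (T.emb j)).measure_zero volume)] with θ h v hv
  by_contra h1
  obtain ⟨T, hT, hT'⟩ := Finset.exists_subset_card_eq (not_lt.1 h1)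
  choose c hc using fun j => mem_intc.1 (hT (Dir.emb_mem ⟨T, hT'⟩ j))
  exact h ⟨T, hT'⟩ c ⟨v, hv, funext fun j => eq_add_of_sub_eq' (hc j)⟩

theorem mass_bound {M : Type*} [EMetricSpace M] [MeasurableSpace M] [BorelSpace M] {m n C : ℕ}
    {e : M → (Fin m → ℝ)} (H : TB e n C) {κ : Type} [Fintype κ] {h : κ → ℝ × M → (Fin m → ℝ)}
    (hh : ∀ j, Continuous (h j)) (h0 : ∀ j p, h j (0, p) = e p)
    (hn : ∀ j, ∀ u ∈ Icc (0 : ℝ) 1, ∀ p, ∃ q, ‖h j (u, p) - e q‖ ≤ 1)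
    (hy : ∀ j, LipschitzWith 1 fun p => h j (1, p)) {b : ℕ} (hb : ∀ j p, ‖h j (1, p)‖ ≤ b)
    {Tr : κ → Set M} (ho : ∀ j, IsOpen (Tr j)) {a : ℕ}
    (hc : ∀ p (s : Finset κ), (∀ j ∈ s, p ∈ Tr j) → s.card ≤ a) {Z : Set (Fin m → ℝ)}
    (hZ : Z.Finite) (hZ' : ∀ j p, p ∉ Tr j → h j (1, p) ∈ Z) {z z0 : Chain (n + 1) M} {i : ℤ}
    (hz0 : bd n M z0 = 0) (hi : z - i • z0 ∈ Bd (n + 1) univ)
    (hN : ∀ N : ℤ, N ≠ 0 → N • z0 ∉ Bd (n + 1) univ)
    (hL : ∀ σ ∈ z.support, ∃ L : ℝ≥0, LipschitzWith L σ) :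
    (Fintype.card κ * i.natAbs : ℝ≥0∞) ≤
      ((C + 1) * (Fintype.card (Dir m (n + 1)) * (2 * b + 3) ^ (n + 1) * a) : ℕ) *
        ∑ σ ∈ z.support, (z σ).natAbs * ∫⁻ p, ({x | σ x = p}.encard : ℝ≥0∞) ∂μH[(n + 1 : ℕ)] := by
  classical
  have : Nonempty (Δ (n + 1)) := ⟨vert _ 0⟩
  choose g g1 g2 g3 using fun σ : C(Δ (n + 1), M) => exists_count n.succ_pos hy hb ho hc σ
  let G : ℕ → (Fin m → ℝ) → ℝ≥0∞ := fun l θ =>
    ∑ j, (C + 1 : ℕ) * ∑ σ ∈ z.support, (z σ).natAbs * g σ j l θ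
  have hG : ∀ l, Measurable (G l) := fun l => Finset.measurable_sum _ fun j _ =>
    (Finset.measurable_sum _ fun σ _ => (g1 σ j l).const_mul _).const_mul _
  have h1 : ∀ᵐ θ ∂cube (Fin m), (Fintype.card κ * i.natAbs : ℝ≥0∞) ≤
      liminf (fun l => G l θ) atTop := by
    filter_upwards [cube_ae (Fin m), generic_fin n.succ_pos hZ,
      eventually_all.2 fun j => (eventually_all_finset z.support).2 fun σ hσ =>
        generic_Wle ((hy j).comp (hL σ hσ).choose_spec),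
      eventually_all.2 fun j => (eventually_all_finset z.support).2 fun σ hσ =>
        generic_Reg n.succ_pos ((hy j).comp (hL σ hσ).choose_spec)] with θ a0 a1 a2 a3
    have hθ := cube_norm a0
    have a4 : ∀ j (σ : C(Δ (n + 1), M)) (s : Finset (Δ (n + 1))),
        (∀ x ∈ s, h j (1, σ x) - θ ∉ Wlt m (n + 1)) → ∀ᶠ l in atTop, (s.card : ℝ≥0∞) ≤ g σ j l θ :=
      fun j σ s hs => g3 σ j θ hθ s fun x hx =>
        ⟨by_contra fun e => hs x hx (a1 _ (hZ' j _ e)), hs x hx⟩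
    refine le_liminf_of_le (by isBoundedDefault) ((eventually_all.2 fun j : κ => ?_).mono
      fun l hl => le_trans (by simp) (Finset.card_nsmul_le_sum Finset.univ _ (i.natAbs : ℝ≥0∞)
        fun j _ => hl j))
    by_cases hf : ∀ σ ∈ z.support, {x | h j (1, σ x) - θ ∉ Wlt m (n + 1)}.Finite
    · have hs : ∀ σ : C(Δ (n + 1), M), ∃ s : Finset (Δ (n + 1)),
          (∀ x ∈ s, h j (1, σ x) - θ ∉ Wlt m (n + 1)) ∧
          (σ ∈ z.support → ∀ x, h j (1, σ x) - θ ∉ Wlt m (n + 1) → x ∈ s) := fun σ => by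
        by_cases e : σ ∈ z.support
        · exact ⟨(hf σ e).toFinset, fun x hx => (hf σ e).mem_toFinset.1 hx,
            fun _ x hx => (hf σ e).mem_toFinset.2 hx⟩
        · exact ⟨∅, by simp, fun e' => absurd e' e⟩
      choose s s1 s2 using hs
      have b1 := H (h j) (hh j) (h0 j) (hn j) θ hθ z z0 i hz0 hi hN (a2 j) (a3 j) s s2
      refine ((eventually_all_finset z.support).2 fun σ _ => a4 j σ _ (s1 σ)).mono fun l hl => ?_
      calc (i.natAbs : ℝ≥0∞) ≤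
          C * ∑ σ ∈ z.support, ((z σ).natAbs : ℝ≥0∞) * (s σ).card := by exact_mod_cast b1
        _ ≤ _ := mul_le_mul' (Nat.cast_le.2 C.le_succ)
            (Finset.sum_le_sum fun σ hσ => mul_le_mul_right (hl σ hσ) _)
    · push Not at hf
      obtain ⟨σ, hσ, hf⟩ := hf
      obtain ⟨s, s1, s2⟩ := hf.exists_subset_card_eq i.natAbs
      refine (a4 j σ s fun x hx => s1 hx).mono fun l hl => ?_
      rw [s2] at hl
      refine hl.trans (le_trans ?_ (le_mul_of_one_le_left' (by simp)))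
      refine le_trans (le_mul_of_one_le_left' ?_) (Finset.single_le_sum
        (f := fun σ => ((z σ).natAbs : ℝ≥0∞) * g σ j l θ) (fun _ _ => zero_le) hσ)
      exact_mod_cast Int.natAbs_pos.2 (Finsupp.mem_support_iff.1 hσ)
  have h2 := (lintegral_mono_ae h1).trans (lintegral_liminf_le hG)
  rw [lintegral_const, measure_univ, mul_one] at h2
  refine h2.trans (liminf_le_of_frequently_le' (Frequently.of_forall fun l => ?_))
  simp only [G]
  rw [lintegral_finsetSum _ fun j _ =>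
    (Finset.measurable_sum _ fun σ _ => (g1 σ j l).const_mul _).const_mul _]
  simp_rw [fun j => lintegral_const_mul (μ := cube (Fin m)) (C + 1 : ℕ)
    (Finset.measurable_sum z.support fun σ _ => (g1 σ j l).const_mul (z σ).natAbs),
    fun j => lintegral_finsetSum (μ := cube (Fin m)) z.support
      fun σ _ => (g1 σ j l).const_mul (z σ).natAbs,
    fun j σ => lintegral_const_mul (μ := cube (Fin m)) (z σ).natAbs (g1 σ j l)]
  rw [← Finset.mul_sum, Finset.sum_comm, Nat.cast_mul, mul_assoc]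
  refine mul_le_mul_right ?_ _
  rw [Finset.mul_sum]
  refine Finset.sum_le_sum fun σ _ => ?_
  rw [← Finset.mul_sum, mul_left_comm]
  exact mul_le_mul_right (g2 σ l) _

end Pool.Agent.Lib.MP_d476f3_gt.St
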