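import Pool.Agent.Lib.MP_d476f3_gt.St.Mass
import Pool.Agent.Lib.MP_d476f3_gt.Abs.CatMain

open Set MeasureTheory Filter Topology
open scoped Manifold ContDiff ENNReal NNReal

noncomputable section

namespace Pool.Agent.Lib.MP_d476f3_gt.St

open Abs

theorem set_bound {M : Type*} [EMetricSpace M] [MeasurableSpace M] [BorelSpace M] {m k : ℕ}
    (hk : 0 < k) {κ : Type} [Fintype κ] {y : κ → M → (Fin m → ℝ)}
    (hy : ∀ j, LipschitzWith 1 (y j)) {b : ℕ} (hb : ∀ j p, ‖y j p‖ ≤ b)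
    {Tr : κ → Set M} (ho : ∀ j, IsOpen (Tr j)) {a : ℕ}
    (hc : ∀ p (s : Finset κ), (∀ j ∈ s, p ∈ Tr j) → s.card ≤ a) {Z : Set (Fin m → ℝ)}
    (hZ : Z.Finite) (hZ' : ∀ j p, p ∉ Tr j → y j p ∈ Z) {A : Set M}
    (hA : ∀ j θ, ‖θ‖ ≤ 1 → ∃ p ∈ A, y j p - θ ∉ Wlt m k) :
    (Fintype.card κ : ℝ≥0∞) ≤ (Fintype.card (Dir m k) * (2 * b + 3) ^ k * a : ℕ) * μH[k] A := by
  rw [Nat.cast_mul, mul_assoc]
  refine le_trans ?_ (mul_le_mul_right (sum_inter_le μH[k] ho hc A) _)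
  rw [Finset.mul_sum]
  refine le_trans (by simp) (Finset.card_nsmul_le_sum Finset.univ _ 1 fun j _ =>
    le_trans ?_ (hit_le hk (hy j) (hb j) _))
  rw [← measure_univ (μ := cube (Fin m))]
  refine measure_mono_ae (((cube_ae _).and (generic_fin hk hZ)).mono fun θ hθ _ => ?_)
  obtain ⟨p, hp, h⟩ := hA j θ (cube_norm hθ.1)
  exact ⟨cube_norm hθ.1, p, ⟨by_contra fun e => h (hθ.2 _ (hZ' j p e)), hp⟩, h⟩

lemma coord_bound {κ : Type} [Fintype κ] {m n : ℕ} (D : Dat κ m n) {x v : Fin m → ℝ} {β : ℝ}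
    (hβ : ∀ i, ‖fderiv ℝ (D.ff i 1) x v‖ ≤ β) :
    ∑ c : κ × Fin m, (fderiv ℝ (fun y => D.ff c.1 1 y c.2) x v) ^ 2 ≤ (n * m * β) ^ 2 := by
  classical
  have h1 : ∀ i t, fderiv ℝ (fun y => D.ff i 1 y t) x v = fderiv ℝ (D.ff i 1) x v t := fun i t => by
    rw [fderiv_apply ((D.ff_smooth i).differentiable (by simp) x)]
    rfl
  have h2 : ∀ i, ∑ t, (fderiv ℝ (fun y => D.ff i 1 y t) x v) ^ 2 ≤
      if D.Tr i x then m * β ^ 2 else 0 := fun i => by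
    split_ifs with h
    · refine (Finset.sum_le_card_nsmul _ _ (β ^ 2) fun t _ => ?_).trans (by simp)
      rw [← sq_abs, h1]
      exact pow_le_pow_left₀ (abs_nonneg _) ((norm_le_pi_norm _ t).trans (hβ i)) 2
    · exact (Finset.sum_eq_zero fun t _ => by simp [h1, D.deep_deriv h]).le
  rw [Fintype.sum_prod_type]
  refine (Finset.sum_le_sum fun i _ => h2 i).trans ?_
  rw [← Finset.sum_filter, Finset.sum_const, nsmul_eq_mul]
  have h3 : ((Finset.univ.filter fun i => D.Tr i x).card : ℝ) ≤ n := by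
    exact_mod_cast D.card_Tr x
  have h4 : (n * m : ℝ) ≤ (n * m) ^ 2 := by
    exact_mod_cast Nat.le_self_pow two_ne_zero (n * m)
  calc _ ≤ (n * m) * β ^ 2 := by rw [← mul_assoc]; gcongr
    _ ≤ (n * m) ^ 2 * β ^ 2 := by gcongr
    _ = _ := by ring

/-- a deformation of the embedding `e` staying close to its image -/
structure Defo {M : Type*} [TopologicalSpace M] {m : ℕ} (e : M → (Fin m → ℝ))
    (h : ℝ × M → (Fin m → ℝ)) : Prop where
  cont : Continuous h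
  zero : ∀ p, h (0, p) = e p
  near : ∀ u ∈ Icc (0 : ℝ) 1, ∀ p, ∃ q, ‖h (u, p) - e q‖ ≤ 1

theorem families (d : ℕ) (hd : 0 < d) (M : Type*) [TopologicalSpace M]
    [ChartedSpace (EuclideanSpace ℝ (Fin d)) M] [IsManifold (𝓡 d) ∞ M] [T2Space M]
    [CompactSpace M] (n : ℕ) (V : Fin (n + 1) → Set M) (hV : ∀ j, IsOpen (V j))
    (hcov : ⋃ j, V j = univ)
    (hN : ∀ j, (⟨Subtype.val, continuous_subtype_val⟩ : C(V j, M)).Nullhomotopic)
    {m : ℕ} {e : M → (Fin m → ℝ)} (he : ContMDiff (𝓡 d) 𝓘(ℝ, Fin m → ℝ) ∞ e)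
    (hinj : ∀ x, Function.Injective (mfderiv (𝓡 d) 𝓘(ℝ, Fin m → ℝ) e x))
    (hei : Function.Injective e) :
    ∃ (C : ℝ≥0) (Z : Set (Fin m → ℝ)), Z.Finite ∧ ∀ N : ℕ, 0 < N → ∃ (g : RMetric d M)
      (h : Fin N → ℝ × M → (Fin m → ℝ)) (Tr : Fin N → Set M), (∀ j, Defo e (h j)) ∧
      (∀ j t p q, edist (h j (1, p) t) (h j (1, q) t) ≤ (rdist g).edist p q) ∧
      (∀ j, IsOpen (Tr j)) ∧ (∀ p (s : Finset (Fin N)), (∀ j ∈ s, p ∈ Tr j) → s.card ≤ n) ∧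
      (∀ j p, p ∉ Tr j → h j (1, p) ∈ Z) ∧ vol g d univ ≤ (C * N ^ n : ℝ≥0) := by
  classical
  have hK := isCompact_range he.continuous
  obtain ⟨lam, C1, hlam, hmet⟩ := cat_pack d m n hd M e he hinj
  obtain ⟨C3, hC3⟩ := W_lip
  obtain ⟨φ, K, hφ, hKV, hlab⟩ := exists_coords he.continuous hei V hV hcov
  choose G z hG G0 G1 hGn using fun j =>
    exists_contraction he.continuous hei (hKV j).1 (hKV j).2 (hN j)
  obtain ⟨B, hB⟩ : ∃ B : ℝ≥0, ∀ p j, ∀ s ∈ Icc (0 : ℝ) 1, ‖fderiv ℝ (G j) (e p, s)‖ ≤ B := by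
    obtain ⟨B, hB⟩ := (hK.prod (isCompact_Icc (a := (0 : ℝ)) (b := 1))).exists_bound_of_continuousOn
      (f := fun w j => fderiv ℝ (G j) w)
      (continuous_pi fun j => (hG j).continuous_fderiv (by simp)).continuousOn
    exact ⟨B.toNNReal, fun p j s hs => (norm_le_pi_norm (fun j => fderiv ℝ (G j) (e p, s)) j).trans
      ((hB _ ⟨mem_range_self p, hs⟩).trans (Real.le_coe_toNNReal _))⟩
  obtain ⟨B', hB'⟩ : ∃ B' : ℝ≥0, ∀ p, ‖fderiv ℝ φ (e p)‖ ≤ B' := by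
    obtain ⟨B, hB⟩ := hK.exists_bound_of_continuousOn (hφ.continuous_fderiv (by simp)).continuousOn
    exact ⟨B.toNNReal, fun p => (hB _ (mem_range_self p)).trans (Real.le_coe_toNNReal _)⟩
  obtain ⟨L, hL⟩ : ∃ L : ℝ≥0, L = n * m * B := ⟨_, rfl⟩
  obtain ⟨C4, hC4⟩ : ∃ C4 : ℝ≥0, C4 = n * (C3 * NNReal.pi * 4) * B' := ⟨_, rfl⟩
  refine ⟨C1 * ((L + 1) ^ d * (1 + C4) ^ n * (lam univ).toNNReal) + 1, range z, finite_range z,
    fun N N0 => ?_⟩
  have N0' : (0 : ℝ) < N := by exact_mod_cast N0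
  have hl : ∀ (s : ℝ) (w : Fin n → ℤ), ∃ j, ∀ p, (fun a => ⌊φ (e p) a - s⌋) = w → p ∈ K j :=
    fun s w => by
      by_cases h : ∃ p, (fun a => ⌊φ (e p) a - s⌋) = w
      · obtain ⟨p, rfl⟩ := h
        obtain ⟨j, hj⟩ := hlab p
        refine ⟨j, fun q hq => hj q ((pi_norm_le_iff_of_nonneg zero_le_one).2 fun a => ?_)⟩
        simpa using (Int.abs_sub_lt_one_of_floor_eq_floor (congrFun hq a)).le
      · exact ⟨0, fun p hp => absurd ⟨p, hp⟩ h⟩
  choose lab hlab' using hl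
  let D : Dat (Fin N) m n :=
    { φ := φ, G := G, z := z, σ := fun i => (i : ℕ) / N,
      lab := fun i => lab ((i : ℕ) / N), ρ := 1 / (4 * N),
      hφ := hφ, hG := hG, G0 := G0, G1 := G1, hρ := by positivity,
      sep := fun i i' k h => sep_fin N0 _ _ k h }
  have a1 : ∀ p v, ∑ c : Fin N × Fin m, (fderiv ℝ (fun y => D.ff c.1 1 y c.2) (e p) v) ^ 2 ≤
      (((1 + C4 * N : ℝ≥0) : ℝ) * L * ‖v‖) ^ 2 := fun p v => by
    refine (coord_bound D (β := B * ((1 + C4 * N) * ‖v‖))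
      fun i => (D.ff_deriv hC3 (hB p) i v).trans
        (mul_le_mul_of_nonneg_left (max_le ?_ ?_) B.2)).trans_eq ?_
    · exact le_mul_of_one_le_left (norm_nonneg _) (le_add_of_nonneg_right (by positivity))
    · have h1 := (fderiv ℝ φ (e p)).le_of_opNorm_le (hB' p) v
      have hp := Real.pi_pos
      calc _ ≤ n * (C3 * Real.pi / (1 / (4 * N))) * (B' * ‖v‖) :=
            mul_le_mul_of_nonneg_left h1 (by positivity)
        _ = C4 * N * ‖v‖ := by rw [hC4]; push_cast [NNReal.coe_real_pi]; field_simp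
        _ ≤ _ := by gcongr; exact le_add_of_nonneg_left zero_le_one
    · rw [hL]; push_cast; ring
  have a2 : ∀ p v, fderiv ℝ D.φ (e p) v = 0 →
      ∑ c : Fin N × Fin m, (fderiv ℝ (fun y => D.ff c.1 1 y c.2) (e p) v) ^ 2 ≤ (L * ‖v‖) ^ 2 :=
    fun p v hv => by
      refine (coord_bound D (β := B * ‖v‖) fun i => (D.ff_deriv hC3 (hB p) i v).trans_eq ?_).trans_eq ?_
      · rw [hv, norm_zero, mul_zero, max_eq_left (norm_nonneg _)]
      · rw [hL]; push_cast; ring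
  obtain ⟨g, hg1, hg2⟩ := hmet (Fin N × Fin m) (fun c y => D.ff c.1 1 y c.2)
    (fun c => contDiff_pi.1 (D.ff_smooth c.1) c.2) univ isOpen_univ L
    (1 + C4 * N) 1 le_self_add one_pos le_rfl
    (fun p _ => ⟨a1 p, (fderiv ℝ φ (e p)).toLinearMap, a2 p⟩) fun p hp => absurd (mem_univ _) hp
  refine ⟨g, fun i w => D.ff i w.1 (e w.2), fun i => {p | D.Tr i (e p)}, fun i => ⟨
    (D.ff_cont i).comp (continuous_fst.prodMk (he.continuous.comp continuous_snd)),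
    fun p => by simp [Dat.ff, D.G0], fun u hu p => hGn _ p (hlab' _ _ p rfl) _
      ⟨mul_nonneg hu.1 (D.tm_mem i _).1, mul_le_one₀ hu.2 (D.tm_mem i _).1 (D.tm_mem i _).2⟩⟩,
    fun j t => hg1 (j, t), fun i => (D.isOpen_Tr i).preimage he.continuous, fun p s hs =>
      (Finset.card_le_card fun j hj => Finset.mem_filter.2 ⟨Finset.mem_univ _, hs j hj⟩).trans
        (D.card_Tr (e p)), fun i p hp => ?_, hg2.trans ?_⟩
  · obtain ⟨l, hl⟩ := D.deep hp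
    exact ⟨l, hl.self_of_nhds.symm⟩
  rw [← ENNReal.coe_toNNReal (measure_ne_top lam univ), ENNReal.toNNReal_coe]
  generalize (lam univ).toNNReal = y
  have N1 : (1 : ℝ≥0) ≤ N := by exact_mod_cast N0
  have h1 : 1 + C4 * N ≤ (1 + C4) * N := by
    rw [add_mul, one_mul]
    gcongr
  have h2 : C1 * ((L + 1) ^ d * (1 + C4 * N) ^ n * y) + 1 ≤
      (C1 * ((L + 1) ^ d * (1 + C4) ^ n * y) + 1) * N ^ n := by
    calc _ ≤ C1 * ((L + 1) ^ d * ((1 + C4) * N) ^ n * y) + N ^ n := by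
          gcongr
          exact one_le_pow₀ N1
      _ = _ := by rw [mul_pow _ (N : ℝ≥0)]; ring
  exact_mod_cast h2

end Pool.Agent.Lib.MP_d476f3_gt.St
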