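import Pool.Agent.Lib.MP_d476f3_gt.St.Gen

open Set Finsupp MeasureTheory Filter Topology
open scoped NNReal

noncomputable section

namespace Pool.Agent.Lib.MP_d476f3_gt.St

section

variable {E : Type*} [NormedAddCommGroup E] [NormedSpace ℝ E] {n : ℕ}

omit [NormedSpace ℝ E] in
lemma exists_diam {A : Set E} {w : Chain n E} (hw : w ∈ Ch n A) :
    ∃ N, (Sd n E ^ N : Module.End ℤ _) w ∈
      supported ℤ ℤ {σ : C(Δ n, E) | range σ ⊆ A ∧ ∀ x y, dist (σ x) (σ y) ≤ 1} := by
  let S : Submodule ℤ (Chain n E) :=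
    { carrier := {w | ∀ᶠ N in atTop, (Sd n E ^ N : Module.End ℤ _) w ∈
        supported ℤ ℤ {σ : C(Δ n, E) | range σ ⊆ A ∧ ∀ x y, dist (σ x) (σ y) ≤ 1}}
      add_mem' := fun ha hb => (ha.and hb).mono fun N h => by
        rw [map_add]; exact Submodule.add_mem _ h.1 h.2
      zero_mem' := by simp
      smul_mem' := fun c a ha => ha.mono fun N h => by
        rw [map_smul]; exact Submodule.smul_mem _ _ h }
  refine (Ch_mem LinearMap.id S (fun σ hσ => ?_) hw).exists
  obtain ⟨δ, hδ, H⟩ := Metric.uniformContinuous_iff.1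
    (CompactSpace.uniformContinuous_of_continuous σ.continuous) _ one_half_pos
  have hlim : Tendsto (fun N : ℕ => (n / (n + 1) : ℝ) ^ N) atTop (𝓝 0) :=
    tendsto_pow_atTop_nhds_zero_of_lt_one (by positivity)
      (by rw [div_lt_one (by positivity)]; linarith)
  refine (hlim.eventually (gt_mem_nhds hδ)).mono fun N hN => ?_
  rw [LinearMap.id_apply, ← R_vert, Sd_pow_R]
  refine supp_mem _ _ (fun u hu => ?_) (lsd_pow_supp n N)
  have h1 : ∀ x, aff n n u x ∈ Metric.ball (u 0) δ := fun x =>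
    (convex_ball (u 0).1 δ).sum_mem (fun i _ => x.2.1 i) x.2.2 fun i _ => (hu i 0).trans_lt hN
  rw [R_single]
  refine single_mem_supported ℤ _ ⟨(range_comp_sub _ _).trans hσ, fun x y => ?_⟩
  linarith [H (h1 x), H (h1 y), dist_triangle_right (σ (aff n n u x)) (σ (aff n n u y)) (σ (u 0)),
    show dist ((σ.comp (aff n n u)) x) ((σ.comp (aff n n u)) y) =
      dist (σ (aff n n u x)) (σ (aff n n u y)) from rfl]

/-- affine simplices in a vector space -/
def afE (n : ℕ) (v : Fin (n + 1) → E) : C(Δ n, E) where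
  toFun x := ∑ i, x.1 i • v i
  continuous_toFun := continuous_finsetSum _ fun i _ =>
    ((continuous_apply i).comp continuous_subtype_val).smul continuous_const

lemma afE_lip (v : Fin (n + 1) → E) : ∃ C : ℝ≥0, LipschitzWith C (afE n v) := by
  let L := LinearMap.toContinuousLinearMap (Fintype.linearCombination ℝ v)
  exact ⟨_, L.lipschitz.comp (LipschitzWith.subtype_val _)⟩

lemma afE_aff (p : ℕ) (v : Fin (p + 1) → E) (u : Fin (n + 1) → Δ p) :
    (afE p v).comp (aff p n u) = afE n (afE p v ∘ u) := by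
  refine ContinuousMap.ext fun x => ?_
  change ∑ i, (aff p n u x).1 i • v i = ∑ j, x.1 j • ∑ i, (u j).1 i • v i
  simp only [aff_val, Finset.smul_sum, Finset.sum_apply, Pi.smul_apply, smul_eq_mul,
    Finset.sum_smul, mul_smul]
  exact Finset.sum_comm

lemma afE_vert (v : Fin (n + 1) → E) : afE n v ∘ vert n = v := by
  funext i
  change ∑ j, (vert n i).1 j • v j = v i
  simp [vert, Pi.single_apply]

lemma afE_face (σ : C(Δ (n + 1), E)) (i : Fin (n + 2)) :
    (afE (n + 1) (σ ∘ vert (n + 1))).comp (face i) = afE n (σ.comp (face i) ∘ vert n) := by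
  rw [face_eq, afE_aff, ← Function.comp_assoc, afE_vert, ContinuousMap.coe_comp,
    Function.comp_assoc σ (aff _ _ _), aff_apply_vert]
  rfl

/-- the straight homotopy from a simplex to the affine simplex with the same vertices -/
def Hs (σ : C(Δ n, E)) : C(Δ n × Δ 1, E) :=
  ⟨fun x => x.2.1 0 • σ x.1 + x.2.1 1 • afE n (σ ∘ vert n) x.1,
    (((continuous_apply 0).comp (continuous_subtype_val.comp continuous_snd)).smul
      (σ.continuous.comp continuous_fst)).add
    (((continuous_apply 1).comp (continuous_subtype_val.comp continuous_snd)).smul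
      ((afE n _).continuous.comp continuous_fst))⟩

/-- straightening -/
def Sa (n : ℕ) : Chain n E →ₗ[ℤ] Chain n E :=
  linearCombination ℤ fun σ => single (afE n (σ ∘ vert n)) 1

/-- the homotopy between the identity and straightening -/
def Ps (n : ℕ) : Chain n E →ₗ[ℤ] Chain (n + 1) E :=
  linearCombination ℤ fun σ => R (aff2 n) (Hs σ) (n + 1) (lP n (n + 1) (single (vert n) 1))

lemma bd_Ps (c : Chain (n + 1) E) :
    bd (n + 1) E (Ps (n + 1) c) = Sa (n + 1) c - c - Ps n (bd n E c) := by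
  refine lin_ext (f := bd (n + 1) E ∘ₗ Ps (n + 1))
    (g := Sa (n + 1) - LinearMap.id - Ps n ∘ₗ bd n E) (fun σ => ?_) c
  simp only [LinearMap.comp_apply, LinearMap.sub_apply, LinearMap.id_apply, Ps, Sa,
    linearCombination_single, one_smul, bd_single, map_sum, map_smul]
  rw [bd_R (aff2_face _), lP, lbd_lH]
  · rw [map_sub, LinearMap.sub_apply, map_sub, R_lmap _ (aff2_lev _ 1), R_lmap _ (aff2_lev _ 0),
      R_vert, R_vert, lbd_single, map_sum, map_sum]
    congr 1
    · congr 2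
      · exact ContinuousMap.ext fun x => by simp [Hs, lev, vert]
      · exact ContinuousMap.ext fun x => by simp [Hs, lev, vert]
    refine Finset.sum_congr rfl fun i _ => ?_
    rw [map_smul, map_smul]
    congr 1
    have h1 := lH_lmap (fun m => lmap (lev (Δ n) 1) m - lmap (lev (Δ n) 0) m)
      (fun _ v => lev (Δ n) 0 (v 0))
      (fun m => lmap (lev (Δ (n + 1)) 1) m - lmap (lev (Δ (n + 1)) 0) m)
      (fun _ v => lev (Δ (n + 1)) 0 (v 0)) (aff (n + 1) n (vert (n + 1) ∘ i.succAbove))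
      ((aff (n + 1) n (vert (n + 1) ∘ i.succAbove)).prodMap (ContinuousMap.id (Δ 1)))
      (fun _ _ => rfl) (fun m c => by
        simp only [LinearMap.sub_apply, map_sub, lmap_lmap]
        rfl) (n + 1) (single (vert n) 1)
    rw [lmap_single, aff_apply_vert] at h1
    rw [h1, R_lmap _ (aff2_comp (n + 1) n _), ← face_eq, lP]
    congr 2
    refine ContinuousMap.ext fun x => ?_
    have := DFunLike.congr_fun (afE_face σ i) x.1
    simp only [ContinuousMap.comp_apply] at this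
    simp only [Hs, ContinuousMap.comp_apply, ContinuousMap.coe_mk, ← this]
    rfl
  · refine lin_ext (g := 0) fun v => ?_
    simp [Subsingleton.elim (lev _ 1 ∘ v) (lev _ 0 ∘ v)]
  · intro m c
    simp [lbd_lmap]

lemma afE_near {σ : C(Δ n, E)} (h : ∀ x y, dist (σ x) (σ y) ≤ 1) (x y : Δ n) :
    afE n (σ ∘ vert n) x ∈ Metric.closedBall (σ y) 1 :=
  (convex_closedBall _ _).sum_mem (fun i _ => x.2.1 i) x.2.2 fun _ _ => h _ _

end

lemma cube_norm {m : ℕ} {a : Fin m → ℝ} (h : ∀ t, a t ∈ Icc (0 : ℝ) 1) : ‖a‖ ≤ 1 :=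
  (pi_norm_le_iff_of_nonneg zero_le_one).2 fun t => abs_le.2 ⟨by linarith [(h t).1], (h t).2⟩

lemma mem_thick {m : ℕ} {K : Set (Fin m → ℝ)} {x q θ : Fin m → ℝ} (hq : q ∈ K) (h : ‖x - q‖ ≤ 1)
    (hθ : ‖θ‖ ≤ 1) : x - θ ∈ Metric.thickening 3 K := by
  refine Metric.mem_thickening_iff.2 ⟨q, hq, ?_⟩
  rw [dist_eq_norm, sub_right_comm]
  linarith [norm_sub_le (x - q) θ]

theorem exists_rep {m n : ℕ} {K : Set (Fin m → ℝ)} {z : Chain (n + 1) (Fin m → ℝ)}
    (hz : z ∈ Cy n K) : ∃ w ∈ Cy n (Metric.thickening 3 K ∩ Wle m (n + 1)),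
      w - z ∈ Bd (n + 1) (Metric.thickening 3 K) := by
  obtain ⟨N, hN⟩ := exists_diam hz.1
  have h1 := sub_Sd_Zc hz.1 hz.2 N
  have h2 : bd n _ ((Sd (n + 1) _ ^ N : Module.End ℤ _) z) = 0 := by
    rw [bd_Sd_pow, show bd n _ z = 0 from hz.2, map_zero]
  generalize (Sd (n + 1) _ ^ N : Module.End ℤ _) z = u at hN h1 h2
  let A : Set (Fin m → ℝ) := {x | ∃ q ∈ K, ‖x - q‖ ≤ 1}
  have hA : A ⊆ Metric.thickening 3 K := fun x ⟨q, hq, h⟩ => by
    simpa using mem_thick (θ := 0) hq h (by simp)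
  have h3 : Ps (n + 1) u ∈ Ch (n + 2) A := supp_mem _ _ (fun σ hσ => by
    simp only [Ps, linearCombination_single, one_smul]
    refine Ch_mono ?_ (R_mem _ _ _)
    rintro _ ⟨⟨x, t⟩, rfl⟩
    refine ⟨σ x, hσ.1 ⟨x, rfl⟩, mem_closedBall_iff_norm.1 ?_⟩
    exact convex_closedBall _ _ (Metric.mem_closedBall_self zero_le_one) (afE_near hσ.2 x x)
      (t.2.1 0) (t.2.1 1) (by simpa [Fin.sum_univ_two] using t.2.2)) hN
  have h4 := bd_mem_Bd h3
  rw [bd_Ps, h2, map_zero, sub_zero] at h4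
  have h5 : Sa (n + 1) u ∈ supported ℤ ℤ
      {σ : C(Δ (n + 1), Fin m → ℝ) | range σ ⊆ A ∧ ∃ C : ℝ≥0, LipschitzWith C σ} :=
    supp_mem _ _ (fun σ hσ => by
      simp only [Sa, linearCombination_single, one_smul]
      refine single_mem_supported ℤ _ ⟨?_, afE_lip _⟩
      rintro _ ⟨x, rfl⟩
      exact ⟨σ x, hσ.1 ⟨x, rfl⟩, mem_closedBall_iff_norm.1 (afE_near hσ.2 x x)⟩) hN
  have h6 : bd n _ (Sa (n + 1) u) = 0 := by
    have := bd_of_mem_Bd h4
    rwa [map_sub, h2, sub_zero] at this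
  generalize Sa (n + 1) u = v at h4 h5 h6
  obtain ⟨θ, a1, a2⟩ := ((cube_ae (Fin m)).and ((eventually_all_finset v.support).2
    fun σ hσ => generic_Wle (h5 hσ).2.choose_spec)).exists
  have h7 : v ∈ Ch (n + 1) {x | x ∈ A ∧ x - θ ∈ Wle m (n + 1)} := fun σ hσ => by
    rintro _ ⟨x, rfl⟩
    exact ⟨(h5 hσ).1 ⟨x, rfl⟩, a2 σ hσ x⟩
  have hc : Continuous fun x : Fin m → ℝ => x - θ := by fun_prop
  have h8 := push_sub_push (f := id) (B := Metric.thickening 3 K) continuousOn_id hc.continuousOn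
    (by
      rintro x ⟨⟨q, hq, h⟩, -⟩ _ ⟨a, b, ha, hb, hab, rfl⟩
      have := mem_thick (θ := b • θ) hq h (by
        rw [norm_smul, Real.norm_of_nonneg hb]
        exact mul_le_one₀ (by linarith) (norm_nonneg _) (cube_norm a1))
      obtain rfl : a = 1 - b := by linarith
      exact (congrArg (· ∈ _) (by simp only [id]; module)).mp this) h7 h6
  rw [push_id] at h8
  refine ⟨_, push_Cy hc.continuousOn (fun x hx => ?_) ⟨h7, h6⟩, ?_⟩
  · obtain ⟨⟨q, hq, h⟩, h'⟩ := hx
    exact ⟨mem_thick hq h (cube_norm a1), h'⟩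
  have := Submodule.sub_mem _ (Submodule.add_mem _ h8 (Bd_mono hA h4))
    (Bd_mono (Metric.self_subset_thickening three_pos K) h1)
  exact (congrArg (· ∈ _) (by abel)).mp this

end Pool.Agent.Lib.MP_d476f3_gt.St
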