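import Pool.Agent.Lib.MP_d476f3_gt.St.Str

open Set Finsupp Filter Topology

noncomputable section

namespace Pool.Agent.Lib.MP_d476f3_gt.St

theorem top_bound {M : Type*} [TopologicalSpace M] [CompactSpace M] {m : ℕ}
    {e : M → (Fin m → ℝ)} {r : (Fin m → ℝ) → M} (he : Continuous e)
    (hr : ContinuousOn r (Metric.thickening 10 (range e))) (hre : ∀ p, r (e p) = p) (n : ℕ) :
    ∃ C : ℕ, ∀ h : ℝ × M → (Fin m → ℝ), Continuous h → (∀ p, h (0, p) = e p) →
      (∀ u ∈ Icc (0 : ℝ) 1, ∀ p, ∃ q, ‖h (u, p) - e q‖ ≤ 1) → ∀ θ : Fin m → ℝ, ‖θ‖ ≤ 1 →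
      ∀ (z z0 : Chain (n + 1) M) (i : ℤ), bd n M z0 = 0 → z - i • z0 ∈ Bd (n + 1) univ →
      (∀ N : ℤ, N ≠ 0 → N • z0 ∉ Bd (n + 1) univ) →
      (∀ σ ∈ z.support, ∀ x, h (1, σ x) - θ ∈ Wle m (n + 1)) →
      (∀ σ ∈ z.support, ∀ x (f : Face m (n + 1)), f.π (h (1, σ x) - θ) = 0 →
        Reg (fun p => f.π (h (1, σ p) - θ)) x) →
      ∀ s : C(Δ (n + 1), M) → Finset (Δ (n + 1)),
      (∀ σ ∈ z.support, ∀ x, h (1, σ x) - θ ∉ Wlt m (n + 1) → x ∈ s σ) →
      i.natAbs ≤ C * ∑ σ ∈ z.support, (z σ).natAbs * (s σ).card := by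
  obtain ⟨W⟩ := inv_exists n
  obtain ⟨C, hC⟩ := W.lattice rfl (isCompact_range he).isBounded
  obtain ⟨c, hc⟩ := W.simplex (m := m)
  refine ⟨C * c, fun h hh h0 hn θ hθ z z0 i hz0 hi hN a1 a2 s a3 => ?_⟩
  have hz : bd n M z = 0 := by
    have := bd_of_mem_Bd hi
    rwa [map_sub, map_smul, hz0, smul_zero, sub_zero] at this
  have hg : Continuous fun p : M => h (1, p) - θ := by fun_prop
  have t3 : Metric.thickening 3 (range e) ⊆ Metric.thickening 10 (range e) :=
    Metric.thickening_mono (by norm_num) _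
  have b1 : push (fun p => h (1, p) - θ) (n + 1) z ∈
      Cy n (Metric.thickening 3 (range e) ∩ Wle m (n + 1)) :=
    push_Cy (A := {p | h (1, p) - θ ∈ Wle m (n + 1)}) hg.continuousOn (fun p hp => by
      obtain ⟨q, hq⟩ := hn 1 (right_mem_Icc.2 zero_le_one) p
      exact ⟨mem_thick (mem_range_self q) hq hθ, hp⟩)
      ⟨fun σ hσ => range_subset_iff.2 (a1 σ hσ), hz⟩
  have b2 : push (fun p => h (1, p) - θ) (n + 1) z - push e (n + 1) z ∈
      Bd (n + 1) (Metric.thickening 3 (range e)) := by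
    have h1 : Continuous fun x : M × Δ 1 => x.2.1 1 :=
      (continuous_apply 1).comp (continuous_subtype_val.comp continuous_snd)
    let H : C(M × Δ 1, Fin m → ℝ) := ⟨fun x => h (x.2.1 1, x.1) - x.2.1 1 • θ,
      (hh.comp (h1.prodMk continuous_fst)).sub (h1.smul continuous_const)⟩
    have h2 := bd_Pm H n z
    rw [hz, map_zero, sub_zero, ← push_eq_cmap, ← push_eq_cmap] at h2
    have h3 := bd_mem_Bd (Pm_mem H (A := univ) (B := Metric.thickening 3 (range e)) (fun p _ t => by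
      have ht := mem_Icc_of_mem_stdSimplex t.2 1
      obtain ⟨q, hq⟩ := hn _ ht p
      refine mem_thick (mem_range_self q) hq ?_
      rw [norm_smul, Real.norm_of_nonneg ht.1]
      exact mul_le_one₀ ht.2 (norm_nonneg _) hθ) (mem_Ch_univ z))
    have e1 : (H.comp (lev M 1) : M → _) = fun p => h (1, p) - θ := by
      funext x; simp [H, lev, vert]
    have e0 : (H.comp (lev M 0) : M → _) = e := by
      funext x; simp [H, lev, vert, h0]
    rwa [h2, e1, e0] at h3
  obtain ⟨w0, b3, b4⟩ := exists_rep (push_Cy he.continuousOn (mapsTo_range e univ)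
    (⟨mem_Ch_univ z0, hz0⟩ : z0 ∈ Cy n univ))
  have b5 := push_Bd he.continuousOn (B := Metric.thickening 10 (range e))
    (fun p _ => Metric.self_subset_thickening (by norm_num) _ (mem_range_self p)) hi
  rw [map_sub, map_smul] at b5
  have b6 := hC _ b1 _ b3 i ((congrArg (· ∈ _) (by rw [smul_sub]; abel)).mp (Submodule.sub_mem _
    (Submodule.add_mem _ (Bd_mono t3 b2) b5) (Submodule.smul_mem _ i (Bd_mono t3 b4))))
    (fun N N0 b => hN N N0 (by
      have := push_Bd hr (mapsTo_univ _ _)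
        (Submodule.sub_mem _ b (Submodule.smul_mem _ N (Bd_mono t3 b4)))
      rwa [smul_sub, sub_sub_cancel, map_smul, push_push he.continuousOn hr
        (fun p _ => Metric.self_subset_thickening (by norm_num) _ (mem_range_self p))
        (mem_Ch_univ _), show r ∘ e = id from funext hre, push_id] at this))
    (c * ∑ σ ∈ z.support, (z σ).natAbs * (s σ).card : ℕ) fun f => ?_
  · rw [← Int.natCast_natAbs] at b6
    rw [mul_assoc]
    exact_mod_cast b6
  let y : C(Δ (n + 1), M) → C(Δ (n + 1), Fin m → ℝ) := fun σ => ⟨_, hg.comp σ.continuous⟩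
  have b7 := fun σ : z.support => hc (y σ) (a1 σ σ.2) (a2 σ σ.2)
  have b8 : (⟨_, cy_rel b1⟩ : Rel n (Wle m (n + 1)) (Wlt m (n + 1))) =
      ∑ σ : z.support, z σ • ⟨single (y σ) 1, (b7 σ).1⟩ := Subtype.ext (by
    simp only [AddSubmonoidClass.coe_finsetSum, SetLike.val_smul]
    conv_lhs => rw [← z.sum_single, Finsupp.sum, map_sum, ← Finset.sum_coe_sort]
    refine Finset.sum_congr rfl fun σ _ => ?_
    rw [← smul_single_one, map_smul, push_single (hg.comp σ.1.continuous)])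
  have b9 := congrArg (W.Dh f) b8
  rw [map_sum] at b9
  refine (congrArg _ b9).trans_le ((Finset.abs_sum_le_sum_abs _ _).trans ?_)
  rw [Finset.mul_sum, ← Finset.sum_coe_sort z.support]
  push_cast
  refine Finset.sum_le_sum fun σ _ => ?_
  rw [map_zsmul, smul_eq_mul, abs_mul, mul_left_comm]
  exact mul_le_mul_of_nonneg_left ((b7 σ).2 _ (a3 σ σ.2) f) (abs_nonneg _)

end Pool.Agent.Lib.MP_d476f3_gt.St
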